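import Pool.Agent.Y283.NK.Stm2

/-!
# Project SN (MP_5ac32f_an): `N + t K`, `N` an arbitrary normal operator, `K` in the Schatten class
`C_p`, `p < 2`

Statements of the independent parts.
-/

set_option autoImplicit false

namespace Pool.Agent.K1H27.SN

open MeasureTheory Set Metric Filter Topology
open scoped InnerProductSpace ENNReal NNReal ComplexConjugate
open Pool.Agent.Y283.NK (lm LogBd)

/-- Bessel's inequality (orthonormal sequences, and orthogonal sequences of vectors of norm at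
most one) -/
def Bess {H : Type} [NormedAddCommGroup H] [InnerProductSpace ℂ H] (e : ℕ → H) : Prop :=
  ∀ (n : ℕ) (x : H), ∑ j ∈ Finset.range n, ‖⟪e j, x⟫_ℂ‖ ^ 2 ≤ ‖x‖ ^ 2

/-- CORD: an inequality of Cordes (Araki, Lieb, Thirring) for the weight `w` -/
def S_CORD : Prop :=
  ∀ (S : Type) [MeasurableSpace S] (μ : Measure S) [SigmaFinite μ] (e : ℕ → Lp ℂ 2 μ), Bess e →
  ∀ b : ℕ → ℝ, (∀ i, 0 ≤ b i) → ∀ (n m : ℕ) (w : S → ℝ), Measurable w → (∀ s, 0 ≤ w s) →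
  (∑ i ∈ Finset.range n, ENNReal.ofReal (b i ^ 2 ^ (m + 1)) *
    ∫⁻ s, ‖e i s‖ₑ ^ 2 * ENNReal.ofReal (w s ^ 2 ^ (m + 1)) ∂μ) ≠ ⊤ →
  ∀ g : S → ℂ, Measurable g → ∫⁻ s, ‖g s‖ₑ ^ 2 ∂μ ≠ ⊤ →
  ENNReal.ofReal (∑ i ∈ Finset.range n, b i ^ 2 * ‖∫ s, conj (e i s) * (w s * g s) ∂μ‖ ^ 2) ≤
    (∑ i ∈ Finset.range n, ENNReal.ofReal (b i ^ 2 ^ (m + 1)) *
      ∫⁻ s, ‖e i s‖ₑ ^ 2 * ENNReal.ofReal (w s ^ 2 ^ (m + 1)) ∂μ) ^ ((1 : ℝ) / 2 ^ m) *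
    ∫⁻ s, ‖g s‖ₑ ^ 2 ∂μ

/-- AREAG: area integrals of powers of the Cauchy kernel -/
def S_AREAG : Prop :=
  ∀ (R γ : ℝ), 0 ≤ γ → γ < 2 → ∃ C : ℝ≥0, ∀ w : ℂ,
    ∫⁻ z in ball (0:ℂ) R, (‖z - w‖ₑ⁻¹) ^ γ ≤ C

/-- the regularized determinant `det (1 - t X) exp (t tr X)` -/
noncomputable def fd {n : ℕ} (X : Matrix (Fin n) (Fin n) ℂ) (t : ℂ) : ℂ :=
  (1 - t • X).det * Complex.exp (t * X.trace)

/-- the norms of the columns -/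
noncomputable def col {n : ℕ} (X : Matrix (Fin n) (Fin n) ℂ) (j : Fin n) : ℝ :=
  Real.sqrt (∑ i, ‖X i j‖ ^ 2)

/-- INVP: inverses of the matrices `1 - t X` and potentials of the regularized determinants -/
def S_INVP : Prop :=
  (∀ (n : ℕ) (X : Matrix (Fin n) (Fin n) ℂ) (t : ℂ) (r : ℝ) (b c : Fin n → ℂ), 1 ≤ r → r ≤ 2 →
    (1 - t • X).det ≠ 0 → (1 - t • X).mulVec c = b →
    Real.sqrt (∑ i, ‖c i‖ ^ 2) * ‖fd X t‖ ≤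
      Real.sqrt (∑ i, ‖b i‖ ^ 2) * (2 * Real.exp (3 * ∑ j, (‖t‖ * col X j) ^ r))) ∧
  (∀ m : Measure ℂ, LogBd m → ∀ R : ℝ, ∃ C : ℝ≥0, ∀ (n : ℕ) (X : Matrix (Fin n) (Fin n) ℂ)
    (r A : ℝ), 1 ≤ r → r ≤ 2 → ∑ j, col X j ^ r ≤ A →
    ∫⁻ t in ball (0:ℂ) R, lm ‖fd X t‖ ∂m ≤ C * ENNReal.ofReal (A + 1))

end Pool.Agent.K1H27.SN
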