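import Pool.Agent.K1H27.SN.Pot
import Pool.Agent.Y283.NK.Loc

/-!
# Project SN: columns, weights
-/

set_option autoImplicit false

namespace Pool.Agent.K1H27.SN

open MeasureTheory Set Metric Filter Topology
open scoped InnerProductSpace ENNReal NNReal ComplexConjugate
open Pool.Agent.Y283.NK (lm LogBd ct MM fr measurable_det)
open Pool.Agent.Y604.NK (meas_coe lint_sq meas_ct meas_lm meas_det)

variable {S : Type} [MeasurableSpace S] {μ : Measure S}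

/-- the matrix of the Cauchy transforms -/
noncomputable def XX (φ : S → ℂ) (u v : ℕ → Lp ℂ 2 μ) (n : ℕ) (z : ℂ) :
    Matrix (Fin n) (Fin n) ℂ :=
  Matrix.of fun i j => ct φ (v i) (u j) z

theorem MM_eq (φ : S → ℂ) (u v : ℕ → Lp ℂ 2 μ) (n : ℕ) (t z : ℂ) :
    MM φ u v n t z = 1 - t • XX φ u v n z := rfl

theorem meas_fd [SigmaFinite μ] {φ : S → ℂ} (hφ : Measurable φ) (u v : ℕ → Lp ℂ 2 μ) (n : ℕ) :
    Measurable (fun p : ℂ × ℂ => fd (XX φ u v n p.1) p.2) := by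
  unfold fd
  refine (meas_det hφ u v n).mul (Complex.measurable_exp.comp (measurable_snd.mul ?_))
  unfold Matrix.trace
  exact Finset.measurable_fun_sum _ fun i _ => (meas_ct hφ _ _).comp measurable_fst

variable {p q δ γ r : ℝ} {m : ℕ}

theorem eg_vec {φ : S → ℂ} (hφ : Measurable φ) (γ d : ℝ) {σ : ℕ → ℝ} (hσ : ∀ j, 0 ≤ σ j)
    (f : ℕ → Lp ℂ 2 μ) (j : ℕ) (z : ℂ) :
    eg φ γ (vec σ d f j) z = ENNReal.ofReal ((σ j ^ d) ^ 2) * eg φ γ (f j) z := by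
  unfold eg
  have hm : Measurable fun s => ‖f j s‖ₑ ^ 2 * (‖z - φ s‖ₑ⁻¹) ^ γ :=
    ((meas_coe (f j)).enorm.pow_const 2).mul ((measurable_const.sub hφ).enorm.inv.pow_const γ)
  rw [← lintegral_const_mul _ hm]
  have h4 : ⇑(vec σ d f j) =ᵐ[μ] fun s => ((σ j ^ d : ℝ) : ℂ) * f j s := by
    filter_upwards [Lp.coeFn_smul ((σ j ^ d : ℝ) : ℂ) (f j)] with s hs
    exact hs
  refine lintegral_congr_ae ?_
  filter_upwards [h4] with s hs
  have h0 : 0 ≤ σ j ^ d := Real.rpow_nonneg (hσ j) _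
  have h5 : ‖((σ j ^ d : ℝ) : ℂ)‖ₑ = ENNReal.ofReal (σ j ^ d) := by
    rw [← ofReal_norm, Complex.norm_real, Real.norm_of_nonneg h0]
  rw [hs, enorm_mul, h5, ENNReal.ofReal_pow h0, mul_pow, mul_assoc]

theorem term_fin {φ : S → ℂ} (hφ : Measurable φ) {σ : ℕ → ℝ} (hσ : ∀ j, 0 ≤ σ j)
    {f : ℕ → Lp ℂ 2 μ} {z : ℂ} (hp : 0 < p) (h : sg φ γ f σ p z ≠ ⊤) {d : ℝ} (hd : 0 < d) (j : ℕ) :
    eg φ γ (vec σ d f j) z ≠ ⊤ := by
  rw [eg_vec hφ γ d hσ]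
  rcases eq_or_lt_of_le (hσ j) with h0 | h0
  · rw [← h0, Real.zero_rpow hd.ne']
    simp
  · refine ENNReal.mul_ne_top ENNReal.ofReal_ne_top ?_
    intro h1
    have h2 : ENNReal.ofReal (σ j ^ p) * eg φ γ (f j) z ≤ sg φ γ f σ p z :=
      ENNReal.le_tsum (f := fun j => ENNReal.ofReal (σ j ^ p) * eg φ γ (f j) z) j
    rw [h1, ENNReal.mul_top (by
      have : 0 < σ j ^ p := Real.rpow_pos_of_pos h0 p
      simpa using this)] at h2
    exact h (top_le_iff.1 h2)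

/-- the columns of the matrix -/
theorem col_le [SigmaFinite μ] (hC : S_CORD) (P : Par p m q δ γ r) {φ : S → ℂ}
    (hφ : Measurable φ) {e f : ℕ → Lp ℂ 2 μ} (he : Bess e) {σ : ℕ → ℝ} (hσ : ∀ j, 0 ≤ σ j)
    (z : ℂ) (h1 : sg φ 1 e σ p z ≠ ⊤) (h2 : sg φ γ f σ p z ≠ ⊤) (n : ℕ) (j : Fin n) :
    col (XX φ (vec σ (1 - δ) f) (vec σ δ e) n z) j ^ r ≤
      σ j ^ p * (1 + (sg φ 1 e σ p z).toReal + (eg φ γ (f j) z).toReal) := by
  have hq0 : 0 < q := by linarith [P.q4]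
  have hd : 0 < 1 - δ := by linarith [P.δ1]
  have hp0 : 0 < p := by linarith [P.p1]
  set Pt := (sg φ 1 e σ p z).toReal with hPt
  have hPt0 : 0 ≤ Pt := ENNReal.toReal_nonneg
  set E := (eg φ γ (f j) z).toReal with hE
  have hE0 : 0 ≤ E := ENNReal.toReal_nonneg
  have h3 := colb hC P hφ he hσ z h1 (vec σ (1 - δ) f j) (term_fin hφ hσ hp0 h2 hd j) n
  rw [eg_vec hφ γ (1 - δ) hσ, ENNReal.toReal_mul, ENNReal.toReal_ofReal (by positivity),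
    ← hPt, ← hE] at h3
  have h4 : col (XX φ (vec σ (1 - δ) f) (vec σ δ e) n z) j ^ 2 ≤
      Pt ^ (2 / q) * ((σ j ^ (1 - δ)) ^ 2 * E) := by
    unfold col XX
    rw [Real.sq_sqrt (Finset.sum_nonneg fun i _ => by positivity)]
    refine le_trans (le_of_eq ?_) h3
    rw [Finset.sum_range]
    rfl
  have hc0 : 0 ≤ col (XX φ (vec σ (1 - δ) f) (vec σ δ e) n z) j := Real.sqrt_nonneg _
  have hs0 : 0 ≤ σ j ^ (1 - δ) := Real.rpow_nonneg (hσ j) _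
  calc col (XX φ (vec σ (1 - δ) f) (vec σ δ e) n z) j ^ r
      = (col (XX φ (vec σ (1 - δ) f) (vec σ δ e) n z) j ^ 2) ^ (r / 2) := by
        rw [← Real.rpow_natCast, ← Real.rpow_mul hc0]
        congr 1
        push_cast
        ring
    _ ≤ (Pt ^ (2 / q) * ((σ j ^ (1 - δ)) ^ 2 * E)) ^ (r / 2) :=
        Real.rpow_le_rpow (by positivity) h4 (by linarith [P.r0])
    _ = (Pt ^ (2 / q)) ^ (r / 2) * (((σ j ^ (1 - δ)) ^ 2) ^ (r / 2) * E ^ (r / 2)) := by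
        rw [Real.mul_rpow (Real.rpow_nonneg hPt0 _) (by positivity),
          Real.mul_rpow (by positivity) hE0]
    _ = σ j ^ p * (Pt ^ (r / q) * E ^ (r / 2)) := by
        have e1 : (Pt ^ (2 / q)) ^ (r / 2) = Pt ^ (r / q) := by
          rw [← Real.rpow_mul hPt0]
          congr 1
          field_simp
        have e2 : ((σ j ^ (1 - δ)) ^ 2) ^ (r / 2) = σ j ^ p := by
          rw [← Real.rpow_natCast, ← Real.rpow_mul hs0, ← Real.rpow_mul (hσ j)]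
          congr 1
          push_cast
          rw [← P.mr]
          ring
        rw [e1, e2]
        ring
    _ ≤ σ j ^ p * (1 + Pt + E) := by
        refine mul_le_mul_of_nonneg_left ?_ (Real.rpow_nonneg (hσ j) _)
        exact pow_mul_le hPt0 hE0 (div_nonneg P.r0.le hq0.le) (by linarith [P.r0]) P.rle

/-- the sum over the columns -/
theorem cols_le [SigmaFinite μ] (hC : S_CORD) (P : Par p m q δ γ r) {φ : S → ℂ}
    (hφ : Measurable φ) {e f : ℕ → Lp ℂ 2 μ} (he : Bess e) {σ : ℕ → ℝ} (hσ : ∀ j, 0 ≤ σ j)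
    (hs : Summable fun j => σ j ^ p)
    (z : ℂ) (h1 : sg φ 1 e σ p z ≠ ⊤) (h2 : sg φ γ f σ p z ≠ ⊤) (n : ℕ) :
    ∑ j, col (XX φ (vec σ (1 - δ) f) (vec σ δ e) n z) j ^ r ≤
      (∑' j, σ j ^ p) * (1 + (sg φ 1 e σ p z).toReal) + (sg φ γ f σ p z).toReal := by
  set Pt := (sg φ 1 e σ p z).toReal with hPt
  have hPt0 : 0 ≤ Pt := ENNReal.toReal_nonneg
  have hσp : ∀ j, 0 ≤ σ j ^ p := fun j => Real.rpow_nonneg (hσ j) _
  calc ∑ j, col (XX φ (vec σ (1 - δ) f) (vec σ δ e) n z) j ^ r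
      ≤ ∑ j : Fin n, σ j ^ p * (1 + Pt + (eg φ γ (f j) z).toReal) :=
        Finset.sum_le_sum fun j _ => col_le hC P hφ he hσ z h1 h2 n j
    _ = ∑ j ∈ Finset.range n, σ j ^ p * (1 + Pt + (eg φ γ (f j) z).toReal) := by
        rw [Finset.sum_range]
    _ = (∑ j ∈ Finset.range n, σ j ^ p) * (1 + Pt) +
        ∑ j ∈ Finset.range n, σ j ^ p * (eg φ γ (f j) z).toReal := by
        rw [Finset.sum_mul, ← Finset.sum_add_distrib]
        exact Finset.sum_congr rfl fun j _ => by ring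
    _ ≤ _ := by
        refine add_le_add ?_ ?_
        · exact mul_le_mul_of_nonneg_right (hs.sum_le_tsum _ fun j _ => hσp j) (by linarith)
        · have h3 : ∑ j ∈ Finset.range n, σ j ^ p * (eg φ γ (f j) z).toReal =
              ∑ j ∈ Finset.range n, (ENNReal.ofReal (σ j ^ p) * eg φ γ (f j) z).toReal := by
            refine Finset.sum_congr rfl fun j _ => ?_
            rw [ENNReal.toReal_mul, ENNReal.toReal_ofReal (hσp j)]
          rw [h3, ← ENNReal.toReal_sum]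
          · exact ENNReal.toReal_mono h2 (ENNReal.sum_le_tsum _)
          · intro j _ h4
            have h5 : ENNReal.ofReal (σ j ^ p) * eg φ γ (f j) z ≤ sg φ γ f σ p z :=
              ENNReal.le_tsum (f := fun j => ENNReal.ofReal (σ j ^ p) * eg φ γ (f j) z) j
            rw [h4] at h5
            exact h2 (top_le_iff.1 h5)

/-- the right hand side -/
theorem rhs_le [SigmaFinite μ] (hC : S_CORD) (P : Par p m q δ γ r) {φ : S → ℂ}
    (hφ : Measurable φ) {e : ℕ → Lp ℂ 2 μ} (he : Bess e) {σ : ℕ → ℝ} (hσ : ∀ j, 0 ≤ σ j)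
    (z : ℂ) (h1 : sg φ 1 e σ p z ≠ ⊤) (x : Lp ℂ 2 μ) (h2 : eg φ γ x z ≠ ⊤) (n : ℕ) :
    Real.sqrt (∑ i : Fin n, ‖ct φ (vec σ δ e i) x z‖ ^ 2) ≤
      1 + (sg φ 1 e σ p z).toReal + (eg φ γ x z).toReal := by
  have hq0 : 0 < q := by linarith [P.q4]
  set Pt := (sg φ 1 e σ p z).toReal with hPt
  have hPt0 : 0 ≤ Pt := ENNReal.toReal_nonneg
  set E := (eg φ γ x z).toReal with hE
  have hE0 : 0 ≤ E := ENNReal.toReal_nonneg
  have h3 := colb hC P hφ he hσ z h1 x h2 n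
  rw [Finset.sum_range, ← hPt, ← hE] at h3
  calc Real.sqrt (∑ i : Fin n, ‖ct φ (vec σ δ e i) x z‖ ^ 2) ≤ Real.sqrt (Pt ^ (2 / q) * E) :=
        Real.sqrt_le_sqrt h3
    _ = Pt ^ (1 / q) * E ^ ((1:ℝ) / 2) := by
        rw [Real.sqrt_eq_rpow, Real.mul_rpow (Real.rpow_nonneg hPt0 _) hE0,
          ← Real.rpow_mul hPt0]
        congr 2
        field_simp
    _ ≤ 1 + Pt + E := by
        refine pow_mul_le hPt0 hE0 (by positivity) (by norm_num) ?_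
        have : 1 / q ≤ 1 / 4 := one_div_le_one_div_of_le (by norm_num) P.q4
        linarith

/-- the weight -/
noncomputable def wt (φ : S → ℂ) (γ p : ℝ) (e f u v : ℕ → Lp ℂ 2 μ) (σ : ℕ → ℝ) (n : ℕ)
    (x : Lp ℂ 2 μ) (t z : ℂ) : ℝ≥0∞ :=
  1 + (sg φ 1 e σ p z + eg φ γ x z) + ENNReal.ofReal (3 * (1 + ‖t‖) ^ 2) *
    (ENNReal.ofReal (∑' j, σ j ^ p) * (1 + sg φ 1 e σ p z) + sg φ γ f σ p z) +
    lm ‖fd (XX φ u v n z) t‖

/-- the finite part of the weight -/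
noncomputable def wt0 (φ : S → ℂ) (γ p : ℝ) (e f : ℕ → Lp ℂ 2 μ) (σ : ℕ → ℝ)
    (x : Lp ℂ 2 μ) (t z : ℂ) : ℝ≥0∞ :=
  1 + (sg φ 1 e σ p z + eg φ γ x z) + ENNReal.ofReal (3 * (1 + ‖t‖) ^ 2) *
    (ENNReal.ofReal (∑' j, σ j ^ p) * (1 + sg φ 1 e σ p z) + sg φ γ f σ p z)

theorem wt_eq (φ : S → ℂ) (γ p : ℝ) (e f u v : ℕ → Lp ℂ 2 μ) (σ : ℕ → ℝ) (n : ℕ)
    (x : Lp ℂ 2 μ) (t z : ℂ) : wt φ γ p e f u v σ n x t z =
      wt0 φ γ p e f σ x t z + lm ‖fd (XX φ u v n z) t‖ := rfl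

theorem meas_wt0 [SigmaFinite μ] {φ : S → ℂ} (hφ : Measurable φ) (γ p : ℝ)
    (e f : ℕ → Lp ℂ 2 μ) (σ : ℕ → ℝ) (x : Lp ℂ 2 μ) (t : ℂ) :
    Measurable (wt0 φ γ p e f σ x t) := by
  unfold wt0
  have m1 := meas_sg hφ 1 e σ p
  have m2 := meas_sg hφ γ f σ p
  have m3 := meas_eg hφ γ x
  exact (measurable_const.add (m1.add m3)).add (((measurable_const.add m1).const_mul _).add
    m2 |>.const_mul _)

theorem meas_lmfd [SigmaFinite μ] {φ : S → ℂ} (hφ : Measurable φ) (u v : ℕ → Lp ℂ 2 μ) (n : ℕ)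
    (t : ℂ) : Measurable fun z => lm ‖fd (XX φ u v n z) t‖ := by
  have h1 : Measurable fun z : ℂ => fd (XX φ u v n z) t :=
    (meas_fd hφ u v n).comp (measurable_id.prodMk measurable_const : Measurable fun z : ℂ => (z, t))
  exact meas_lm.comp h1.norm

theorem meas_wt [SigmaFinite μ] {φ : S → ℂ} (hφ : Measurable φ) (γ p : ℝ)
    (e f u v : ℕ → Lp ℂ 2 μ) (σ : ℕ → ℝ) (n : ℕ) (x : Lp ℂ 2 μ) (t : ℂ) :
    Measurable (wt φ γ p e f u v σ n x t) :=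
  (meas_wt0 hφ γ p e f σ x t).add (meas_lmfd hφ u v n t)

/-- consequences of finiteness of the weight -/
theorem wt_fin {φ : S → ℂ} {γ p : ℝ} {e f u v : ℕ → Lp ℂ 2 μ} {σ : ℕ → ℝ}
    (hσ : ∀ j, 0 ≤ σ j) {n : ℕ} {x : Lp ℂ 2 μ} {t z : ℂ}
    (h : wt φ γ p e f u v σ n x t z ≠ ⊤) :
    sg φ 1 e σ p z ≠ ⊤ ∧ eg φ γ x z ≠ ⊤ ∧ sg φ γ f σ p z ≠ ⊤ ∧
    fd (XX φ u v n z) t ≠ 0 ∧
    1 + ((sg φ 1 e σ p z).toReal + (eg φ γ x z).toReal) + 3 * (1 + ‖t‖) ^ 2 *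
      ((∑' j, σ j ^ p) * (1 + (sg φ 1 e σ p z).toReal) + (sg φ γ f σ p z).toReal) +
      Real.posLog ‖fd (XX φ u v n z) t‖⁻¹ ≤ (wt φ γ p e f u v σ n x t z).toReal := by
  have hpos : (0:ℝ) < 3 * (1 + ‖t‖) ^ 2 := by positivity
  have hC0 : 0 ≤ ∑' j, σ j ^ p := tsum_nonneg fun j => Real.rpow_nonneg (hσ j) _
  have h0 := h
  unfold wt at h
  rw [ENNReal.add_ne_top, ENNReal.add_ne_top, ENNReal.add_ne_top, ENNReal.add_ne_top] at h
  obtain ⟨⟨⟨-, h1, h2⟩, h3⟩, h4⟩ := h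
  have h5 : ENNReal.ofReal (∑' j, σ j ^ p) * (1 + sg φ 1 e σ p z) + sg φ γ f σ p z ≠ ⊤ := by
    intro h6
    rw [h6, ENNReal.mul_top (ENNReal.ofReal_pos.2 hpos).ne'] at h3
    exact h3 rfl
  have h6 := (ENNReal.add_ne_top.1 h5).1
  have h7 := (ENNReal.add_ne_top.1 h5).2
  have h8 : fd (XX φ u v n z) t ≠ 0 := by
    intro h8
    rw [h8] at h4
    simp [lm] at h4
  refine ⟨h1, h2, h7, h8, ?_⟩
  have h9 : lm ‖fd (XX φ u v n z) t‖ =
      ENNReal.ofReal (Real.posLog ‖fd (XX φ u v n z) t‖⁻¹) := by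
    unfold lm
    rw [if_neg (by simpa using h8)]
  unfold wt
  rw [ENNReal.toReal_add (ENNReal.add_ne_top.2 ⟨ENNReal.add_ne_top.2
      ⟨by simp, ENNReal.add_ne_top.2 ⟨h1, h2⟩⟩, h3⟩) h4,
    ENNReal.toReal_add (ENNReal.add_ne_top.2 ⟨by simp, ENNReal.add_ne_top.2 ⟨h1, h2⟩⟩) h3,
    ENNReal.toReal_add (by simp) (ENNReal.add_ne_top.2 ⟨h1, h2⟩), ENNReal.toReal_add h1 h2,
    ENNReal.toReal_mul, ENNReal.toReal_ofReal hpos.le, ENNReal.toReal_add h6 h7,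
    ENNReal.toReal_mul, ENNReal.toReal_ofReal hC0, ENNReal.toReal_add (by simp) h1, h9,
    ENNReal.toReal_ofReal Real.posLog_nonneg]
  simp

/-- the numerical inequality -/
theorem num {Pt E κ A D M cb cc L : ℝ} (hPt : 0 ≤ Pt) (hE : 0 ≤ E)
    (hD : 0 < D) (hcb : cb ≤ 1 + Pt + E) (hcb0 : 0 ≤ cb)
    (hL : L ≤ κ * A) (hcc : cc * D ≤ cb * (2 * Real.exp L))
    (hM : 1 + (Pt + E) + κ * A + Real.posLog D⁻¹ ≤ M) : Real.exp (-M) * cc ≤ 1 := by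
  have h1 : D⁻¹ ≤ Real.exp (Real.posLog D⁻¹) := by
    have : Real.log D⁻¹ ≤ Real.posLog D⁻¹ := (le_max_right _ _)
    calc D⁻¹ = Real.exp (Real.log D⁻¹) := (Real.exp_log (by positivity)).symm
      _ ≤ _ := Real.exp_le_exp.2 this
  have h2 : (2:ℝ) ≤ Real.exp 1 := by linarith [Real.add_one_le_exp (1:ℝ)]
  have h3 : cb ≤ Real.exp (Pt + E) := hcb.trans (by linarith [Real.add_one_le_exp (Pt + E)])
  have h4 : cc ≤ cb * (2 * Real.exp L) * D⁻¹ := by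
    rw [← div_eq_mul_inv, le_div_iff₀ hD]
    exact hcc
  calc Real.exp (-M) * cc ≤ Real.exp (-M) * (cb * (2 * Real.exp L) * D⁻¹) := by gcongr
    _ ≤ Real.exp (-M) * (Real.exp (Pt + E) * (Real.exp 1 * Real.exp (κ * A)) *
        Real.exp (Real.posLog D⁻¹)) := by
        gcongr
    _ = Real.exp (-M + (Pt + E + (1 + κ * A) + Real.posLog D⁻¹)) := by
        rw [← Real.exp_add, ← Real.exp_add, ← Real.exp_add, ← Real.exp_add]
    _ ≤ 1 := by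
        rw [Real.exp_le_one_iff]
        linarith

end Pool.Agent.K1H27.SN
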