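import Pool.Agent.K1H27.SN.Loc
import Pool.Agent.K1H27.VM.Fin
import Pool.Agent.K1H31.SN.Cord
import Pool.Agent.K1H31.SN.Areag
import Pool.Agent.K1H31.SN.Invp
import Pool.Agent.Y283.NK.Main

/-!
# Project SN: the theorem
-/

set_option autoImplicit false

namespace Pool.Agent.K1H27.SN

open MeasureTheory Set Metric Filter Topology
open scoped InnerProductSpace ENNReal NNReal ComplexConjugate
open Pool.Agent.Y283.NK (lm LogBd ct MM fr IsMul cj cj_apply W_cj cj_add_smul HasHyp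
  hyp_of_eigen hyp_of_adj_eigen not_surj hyp_shift)
open Pool.Agent.K1H27.VM (LocRes)

section sections

variable {H : Type} [NormedAddCommGroup H] [InnerProductSpace ℂ H]

/-- finite sections of the singular value decomposition -/
noncomputable def frs (σ : ℕ → ℝ) (e f : ℕ → H) (n : ℕ) : H →L[ℂ] H :=
  ∑ j ∈ Finset.range n, (σ j : ℂ) • (innerSL ℂ (e j)).smulRight (f j)

theorem frs_apply (σ : ℕ → ℝ) (e f : ℕ → H) (n : ℕ) (x : H) :
    frs σ e f n x = ∑ j ∈ Finset.range n, ((σ j : ℂ) * ⟪e j, x⟫_ℂ) • f j := by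
  unfold frs
  rw [ContinuousLinearMap.sum_apply]
  refine Finset.sum_congr rfl fun j _ => ?_
  show (σ j : ℂ) • (⟪e j, x⟫_ℂ • f j) = _
  rw [smul_smul]

theorem fr_apply' (u v : ℕ → H) (n : ℕ) (x : H) :
    fr u v n x = ∑ j ∈ Finset.range n, ⟪v j, x⟫_ℂ • u j := by
  unfold fr
  rw [ContinuousLinearMap.sum_apply]
  rfl

theorem split {s δ : ℝ} (hs : 0 ≤ s) (h0 : 0 < δ) (h1 : δ < 1) :
    s ^ (1 - δ) * s ^ δ = s := by
  rw [← Real.rpow_add_of_nonneg hs (by linarith) h0.le, sub_add_cancel, Real.rpow_one]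

theorem fr_vec {σ : ℕ → ℝ} (hσ : ∀ j, 0 ≤ σ j) {δ : ℝ} (h0 : 0 < δ) (h1 : δ < 1) (e f : ℕ → H)
    (n : ℕ) : fr (vec σ (1 - δ) f) (vec σ δ e) n = frs σ e f n := by
  ext x
  rw [fr_apply', frs_apply]
  refine Finset.sum_congr rfl fun j _ => ?_
  unfold vec
  rw [inner_smul_left, Complex.conj_ofReal, smul_smul]
  congr 1
  have h2 : ((σ j : ℝ) : ℂ) = ((σ j ^ (1 - δ) : ℝ) : ℂ) * ((σ j ^ δ : ℝ) : ℂ) := by
    rw [← Complex.ofReal_mul, split (hσ j) h0 h1]
  rw [h2]
  ring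

theorem inner_frs [CompleteSpace H] (σ : ℕ → ℝ) (e f : ℕ → H) (n : ℕ) :
    ContinuousLinearMap.adjoint (frs σ e f n) = frs σ f e n := by
  symm
  rw [ContinuousLinearMap.eq_adjoint_iff]
  intro x y
  rw [frs_apply, frs_apply, sum_inner, inner_sum]
  refine Finset.sum_congr rfl fun j _ => ?_
  rw [inner_smul_left, inner_smul_right, map_mul, Complex.conj_ofReal, inner_conj_symm]
  ring

theorem frs_compact (σ : ℕ → ℝ) (e f : ℕ → H) (n : ℕ) : IsCompactOperator (frs σ e f n) := by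
  unfold frs
  induction n with
  | zero =>
    rw [Finset.sum_range_zero]
    exact isCompactOperator_zero
  | succ n ih =>
    rw [Finset.sum_range_succ]
    exact ih.add ((Pool.Agent.Y77.NK.T1_compact f e n).smul _)

/-- norm convergence of the finite sections -/
theorem tendsto_frs {p q δ γ r' : ℝ} {m₀ : ℕ} (P : Par p m₀ q δ γ r') {σ : ℕ → ℝ}
    (hσ : ∀ j, 0 ≤ σ j)
    (hs : Summable fun j => σ j ^ p) {e f : ℕ → H} (he : Bess e) (hf : ∀ j, ‖f j‖ ≤ 1)
    {K : H →L[ℂ] H} (hK : ∀ x, HasSum (fun j => ((σ j : ℂ) * ⟪e j, x⟫_ℂ) • f j) (K x)) :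
    Tendsto (fun n => frs σ e f n) atTop (𝓝 K) := by
  have hp0 : 0 < p := by
    have := P.mr
    have h1 := P.δ1
    have h2 := P.r0
    nlinarith
  -- boundedness of the singular values
  obtain ⟨M, hM⟩ : ∃ M : ℝ, ∀ j, σ j ^ δ ≤ M := by
    have h1 : Tendsto (fun j => σ j ^ p) atTop (𝓝 0) := hs.tendsto_atTop_zero
    obtain ⟨M, hM⟩ := h1.bddAbove_range
    have hM' : ∀ j, σ j ^ p ≤ M := fun j => hM ⟨j, rfl⟩
    refine ⟨M ^ (δ / p), fun j => ?_⟩
    have h2 : σ j ^ δ = (σ j ^ p) ^ (δ / p) := by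
      rw [← Real.rpow_mul (hσ j), mul_div_cancel₀ _ hp0.ne']
    rw [h2]
    exact Real.rpow_le_rpow (Real.rpow_nonneg (hσ j) _) (hM' j) (div_nonneg P.δ0.le hp0.le)
  have hM0 : 0 ≤ M := (Real.rpow_nonneg (hσ 0) _).trans (hM 0)
  have hsu := summ_u P hσ hs hf
  set τ : ℕ → ℝ := fun n => ∑' j, ‖vec σ (1 - δ) f (j + n)‖ ^ 2 with hτ
  have hτ0 : Tendsto τ atTop (𝓝 0) := tendsto_sum_nat_add fun j => ‖vec σ (1 - δ) f j‖ ^ 2
  have hfin : ∀ (n m : ℕ) (x : H),
      ‖∑ j ∈ Finset.range m, ((σ (j + n) : ℂ) * ⟪e (j + n), x⟫_ℂ) • f (j + n)‖ ≤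
        M * Real.sqrt (τ n) * ‖x‖ := by
    intro n m x
    have hsn : Summable fun j => ‖vec σ (1 - δ) f (j + n)‖ ^ 2 :=
      (summable_nat_add_iff n).2 hsu
    calc ‖∑ j ∈ Finset.range m, ((σ (j + n) : ℂ) * ⟪e (j + n), x⟫_ℂ) • f (j + n)‖
        ≤ ∑ j ∈ Finset.range m, ‖((σ (j + n) : ℂ) * ⟪e (j + n), x⟫_ℂ) • f (j + n)‖ :=
          norm_sum_le _ _
      _ = ∑ j ∈ Finset.range m, (σ (j + n) ^ δ * ‖⟪e (j + n), x⟫_ℂ‖) *
            ‖vec σ (1 - δ) f (j + n)‖ := by
          refine Finset.sum_congr rfl fun j _ => ?_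
          unfold vec
          rw [norm_smul, norm_smul, norm_mul, Complex.norm_real, Complex.norm_real,
            Real.norm_of_nonneg (hσ _), Real.norm_of_nonneg (Real.rpow_nonneg (hσ _) _)]
          nth_rewrite 1 [← split (hσ (j + n)) P.δ0 P.δ1]
          ring
      _ ≤ Real.sqrt (∑ j ∈ Finset.range m, (σ (j + n) ^ δ * ‖⟪e (j + n), x⟫_ℂ‖) ^ 2) *
            Real.sqrt (∑ j ∈ Finset.range m, ‖vec σ (1 - δ) f (j + n)‖ ^ 2) :=
          Real.sum_mul_le_sqrt_mul_sqrt _ _ _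
      _ ≤ (M * ‖x‖) * Real.sqrt (τ n) := by
          refine mul_le_mul ?_ ?_ (Real.sqrt_nonneg _) (by positivity)
          · refine Real.sqrt_le_iff.2 ⟨by positivity, ?_⟩
            calc ∑ j ∈ Finset.range m, (σ (j + n) ^ δ * ‖⟪e (j + n), x⟫_ℂ‖) ^ 2
                ≤ ∑ j ∈ Finset.range m, M ^ 2 * ‖⟪e (j + n), x⟫_ℂ‖ ^ 2 := by
                  refine Finset.sum_le_sum fun j _ => ?_
                  rw [mul_pow]
                  exact mul_le_mul_of_nonneg_right
                    (pow_le_pow_left₀ (Real.rpow_nonneg (hσ _) _) (hM _) 2) (by positivity)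
              _ = M ^ 2 * ∑ j ∈ Finset.range m, ‖⟪e (j + n), x⟫_ℂ‖ ^ 2 := by
                  rw [Finset.mul_sum]
              _ ≤ M ^ 2 * ∑ j ∈ Finset.range (n + m), ‖⟪e j, x⟫_ℂ‖ ^ 2 := by
                  refine mul_le_mul_of_nonneg_left ?_ (by positivity)
                  rw [Finset.sum_range_add]
                  have h3 : ∑ j ∈ Finset.range m, ‖⟪e (j + n), x⟫_ℂ‖ ^ 2 =
                      ∑ j ∈ Finset.range m, ‖⟪e (n + j), x⟫_ℂ‖ ^ 2 := by
                    refine Finset.sum_congr rfl fun j _ => ?_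
                    rw [add_comm]
                  rw [h3]
                  have h4 : 0 ≤ ∑ j ∈ Finset.range n, ‖⟪e j, x⟫_ℂ‖ ^ 2 :=
                    Finset.sum_nonneg fun j _ => by positivity
                  linarith
              _ ≤ M ^ 2 * ‖x‖ ^ 2 := mul_le_mul_of_nonneg_left (he _ x) (by positivity)
              _ = (M * ‖x‖) ^ 2 := by ring
          · exact Real.sqrt_le_sqrt (hsn.sum_le_tsum _ fun j _ => by positivity)
      _ = _ := by ring
  have htail : ∀ n, ‖frs σ e f n - K‖ ≤ M * Real.sqrt (τ n) := by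
    intro n
    rw [norm_sub_rev]
    refine ContinuousLinearMap.opNorm_le_bound _ (by positivity) fun x => ?_
    have h1 : HasSum (fun j => ((σ (j + n) : ℂ) * ⟪e (j + n), x⟫_ℂ) • f (j + n))
        (K x - ∑ i ∈ Finset.range n, ((σ i : ℂ) * ⟪e i, x⟫_ℂ) • f i) :=
      (hasSum_nat_add_iff' n).2 (hK x)
    have h2 : (K - frs σ e f n) x =
        K x - ∑ i ∈ Finset.range n, ((σ i : ℂ) * ⟪e i, x⟫_ℂ) • f i := by
      rw [← frs_apply]
      rfl
    rw [h2]
    exact le_of_tendsto h1.tendsto_sum_nat.norm (Eventually.of_forall fun m => hfin n m x)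
  rw [tendsto_iff_norm_sub_tendsto_zero]
  refine squeeze_zero (fun n => norm_nonneg _) htail ?_
  have h5 : Tendsto (fun n => M * Real.sqrt (τ n)) atTop (𝓝 (M * Real.sqrt 0)) :=
    (hτ0.sqrt).const_mul M
  rwa [Real.sqrt_zero, mul_zero] at h5

end sections

section transport

variable {H H' : Type} [NormedAddCommGroup H] [InnerProductSpace ℂ H]
  [NormedAddCommGroup H'] [InnerProductSpace ℂ H']

theorem inner_symm' (W : H' ≃ₗᵢ[ℂ] H) (a : H) (b : H') : ⟪W.symm a, b⟫_ℂ = ⟪a, W b⟫_ℂ := by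
  rw [← W.inner_map_map, LinearIsometryEquiv.apply_symm_apply]

theorem bess_symm (W : H' ≃ₗᵢ[ℂ] H) {e : ℕ → H} (he : Bess e) : Bess fun j => W.symm (e j) := by
  intro n x
  have h1 := he n (W x)
  rw [LinearIsometryEquiv.norm_map] at h1
  refine le_trans (le_of_eq ?_) h1
  refine Finset.sum_congr rfl fun j _ => ?_
  rw [inner_symm']

theorem cj_frs (W : H' ≃ₗᵢ[ℂ] H) (σ : ℕ → ℝ) (e f : ℕ → H) (n : ℕ) :
    cj W (frs σ e f n) = frs σ (fun j => W.symm (e j)) (fun j => W.symm (f j)) n := by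
  ext x
  rw [cj_apply, frs_apply, frs_apply, map_sum]
  refine Finset.sum_congr rfl fun j _ => ?_
  rw [map_smul, inner_symm']

theorem cj_tendsto (W : H' ≃ₗᵢ[ℂ] H) {A : ℕ → H →L[ℂ] H} {K : H →L[ℂ] H}
    (h : Tendsto A atTop (𝓝 K)) : Tendsto (fun n => cj W (A n)) atTop (𝓝 (cj W K)) := by
  have h1 : Continuous fun T : H →L[ℂ] H => cj W T := by
    unfold cj
    exact continuous_const.clm_comp (continuous_id.clm_comp continuous_const)
  exact (h1.tendsto K).comp h

theorem locRes_of_cj' (W : H' ≃ₗᵢ[ℂ] H) {T : H →L[ℂ] H} (h : LocRes (cj W T)) : LocRes T := by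
  intro x c ρ hρ
  obtain ⟨r, C, X, Z, k, h1, h2, h3, h4, h5, h6⟩ := h (W.symm x) c ρ hρ
  refine ⟨r, C, fun a => W (X a), W Z, k, h1, h2, fun a => ?_, fun a => ?_, ?_, h6⟩
  · rw [← W_cj, ← map_smul, ← map_sub, h3]
  · rw [LinearIsometryEquiv.norm_map]
    exact h4 a
  · rw [← W_cj, ← map_smul, ← map_sub, h5, map_add, map_smul, LinearIsometryEquiv.apply_symm_apply]

end transport

/-- local resolvents for almost every coupling -/
theorem main_loc {p q δ γ r' : ℝ} {m₀ : ℕ} (P : Par p m₀ q δ γ r') (H : Type)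
    [NormedAddCommGroup H] [InnerProductSpace ℂ H] [CompleteSpace H]
    [TopologicalSpace.SeparableSpace H] (N K : H →L[ℂ] H) (hN : IsStarNormal N) {σ : ℕ → ℝ}
    (hσ : ∀ j, 0 ≤ σ j) (hs : Summable fun j => σ j ^ p) {e f : ℕ → H} (he : Bess e)
    (hf : Bess f) (hK : Tendsto (fun n => frs σ e f n) atTop (𝓝 K)) (m : Measure ℂ) [SFinite m]
    (hm : LogBd m) : ∀ᵐ t ∂m, LocRes (N + t • K) := by
  obtain ⟨S, _, μ, _, φ, W, hφ, hφb, hW⟩ := Pool.Agent.Y25.NK.SPN.main H N hN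
  have hMul : IsMul φ (cj W N) := by
    refine ⟨hφ, ⟨‖N‖, hφb⟩, fun f => ?_⟩
    have h1 : MemLp (fun s => φ s * f s) 2 μ := by
      refine MemLp.of_le_mul (c := ‖N‖) (Lp.memLp f)
        (hφ.aestronglyMeasurable.mul (Lp.aestronglyMeasurable f))
        (Eventually.of_forall fun s => ?_)
      rw [norm_mul]
      exact mul_le_mul_of_nonneg_right (hφb s) (norm_nonneg _)
    have h2 := hW f (h1.toLp _) h1.coeFn_toLp
    rw [cj_apply, h2, LinearIsometryEquiv.symm_apply_apply]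
    exact h1.coeFn_toLp
  have hC := Pool.Agent.K1H31.SN.t_CORD
  have hI := Pool.Agent.K1H31.SN.t_INVP
  have hAG := Pool.Agent.K1H31.SN.t_AREAG
  have he' := bess_symm W he
  have hf' := bess_symm W hf
  have hK' : Tendsto (fun n => fr (vec σ (1 - δ) fun j => W.symm (f j))
      (vec σ δ fun j => W.symm (e j)) n) atTop (𝓝 (cj W K)) := by
    have h1 := cj_tendsto W hK
    refine h1.congr fun n => ?_
    rw [cj_frs, fr_vec hσ P.δ0 P.δ1]
  filter_upwards [gen hC hI hAG P hφ he' hf' hσ hs m hm] with t ht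
  have h := loc hC hI hAG P hMul he' hf' hσ hs hK' t ht
  rw [← cj_add_smul] at h
  exact locRes_of_cj' W h

/-- the reflected measure -/
theorem logBd_conj {m : Measure ℂ} (hm : LogBd m) (hl : Measurable lm) :
    LogBd (m.map (starRingEnd ℂ)) := by
  have hc : Measurable (starRingEnd ℂ : ℂ → ℂ) := Complex.continuous_conj.measurable
  intro R
  obtain ⟨C, h1, h2⟩ := hm R
  have hpre : (starRingEnd ℂ : ℂ → ℂ) ⁻¹' (ball (0:ℂ) R) = ball (0:ℂ) R := by
    ext z
    simp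
  refine ⟨C, ?_, fun s => ?_⟩
  · rw [Measure.map_apply hc measurableSet_ball, hpre]
    exact h1
  · have hl2 : Measurable fun t : ℂ => lm ‖t - s‖ :=
      hl.comp (measurable_id.sub measurable_const).norm
    rw [setLIntegral_map measurableSet_ball hl2 hc, hpre]
    refine le_trans (le_of_eq ?_) (h2 (conj s))
    refine lintegral_congr fun t => ?_
    congr 1
    have h3 : (conj t : ℂ) - s = conj (t - conj s) := by
      rw [map_sub, Complex.conj_conj]
    rw [h3, RCLike.norm_conj]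

theorem adj_add_smul {H : Type} [NormedAddCommGroup H] [InnerProductSpace ℂ H] [CompleteSpace H]
    (N K : H →L[ℂ] H) (t : ℂ) : ContinuousLinearMap.adjoint (N + t • K) =
      ContinuousLinearMap.adjoint N + (conj t) • ContinuousLinearMap.adjoint K := by
  rw [map_add]
  congr 1
  ext1 f
  refine ext_inner_right ℂ fun y => ?_
  rw [ContinuousLinearMap.adjoint_inner_left]
  show ⟪f, t • K y⟫_ℂ = ⟪(conj t) • ContinuousLinearMap.adjoint K f, y⟫_ℂ
  rw [inner_smul_right, inner_smul_left, ContinuousLinearMap.adjoint_inner_left,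
    Complex.conj_conj]

/-- two families of local resolvents -/
theorem fin_hyp {H : Type} [NormedAddCommGroup H] [InnerProductSpace ℂ H] [CompleteSpace H]
    {N C : H →L[ℂ] H} (hN : IsStarNormal N) (hC : IsCompactOperator C)
    (h1 : LocRes (N + C)) (h2 : LocRes (ContinuousLinearMap.adjoint (N + C))) :
    (∃ c : ℂ, N + C = c • 1) ∨ HasHyp (N + C) := by
  by_cases hsc : ∃ c : ℂ, N + C = c • 1
  · exact Or.inl hsc
  right
  push Not at hsc
  set T : H →L[ℂ] H := N + C with hT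
  by_cases e1 : ∃ (z : ℂ) (f : H), T f = z • f ∧ f ≠ 0
  · obtain ⟨z, f, h1, h2⟩ := e1
    exact hyp_of_eigen h2 h1 hsc
  by_cases e2 : ∃ (z : ℂ) (f : H), ContinuousLinearMap.adjoint T f = z • f ∧ f ≠ 0
  · obtain ⟨z, f, h1, h2⟩ := e2
    exact hyp_of_adj_eigen h2 h1 hsc
  push Not at e1 e2
  have hnt : Nontrivial H := by
    by_contra h
    rw [not_nontrivial_iff_subsingleton] at h
    apply hsc 0
    ext1 f
    exact Subsingleton.elim _ _
  obtain ⟨c₁, hc₁⟩ := spectrum.nonempty T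
  by_cases hone : spectrum ℂ T = {c₁}
  · have h5 := Pool.Agent.W806.HI.main H N C c₁ hN hC hone
    have h3 : IsCompactOperator (T - c₁ • (1 : H →L[ℂ] H)) := by
      have h4 : T - c₁ • (1 : H →L[ℂ] H) = (N - c₁ • (1 : H →L[ℂ] H)) + C := by rw [hT]; abel
      rw [h4]
      exact h5.add hC
    refine hyp_shift c₁ (Pool.Agent.W577.HI.G1.main _ _ h3 ?_)
    rintro ⟨c, hc⟩
    apply hsc (c + c₁)
    rw [add_smul, ← hc]
    abel
  obtain ⟨c₂, hc₂, hne⟩ : ∃ c₂ ∈ spectrum ℂ T, c₂ ≠ c₁ := by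
    by_contra hcon
    push Not at hcon
    apply hone
    ext z
    exact ⟨fun hz => hcon z hz, fun hz => by rw [mem_singleton_iff.1 hz]; exact hc₁⟩
  have hdist : 0 < ‖c₁ - c₂‖ := norm_pos_iff.2 (sub_ne_zero.2 (Ne.symm hne))
  have hρ : 0 < ‖c₁ - c₂‖ / 4 := by positivity
  obtain ⟨x, hx⟩ := not_surj e1 hc₁
  obtain ⟨r₁, C₁, X, Z₁, k₁, a1, a2, a3, a4, a5, a6⟩ := h1 x c₁ _ hρ
  have hX0 : X 0 ≠ 0 := by
    intro h0
    rw [h0, zero_add] at a5
    apply hx (k₁⁻¹ • Z₁)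
    rw [map_smul, smul_comm, ← smul_sub, a5, smul_smul, inv_mul_cancel₀ a6, one_smul]
  have hc₂' : (conj c₂) ∈ spectrum ℂ (ContinuousLinearMap.adjoint T) := by
    have h1 : ContinuousLinearMap.adjoint T = star T := rfl
    rw [h1, spectrum.map_star]
    simpa using hc₂
  obtain ⟨y, hy⟩ := not_surj e2 hc₂'
  obtain ⟨r₂, C₂, Y, Z₂, k₂, b1, b2, b3, b4, b5, b6⟩ := h2 y (conj c₂) _ hρ
  have hY0 : Y 0 ≠ 0 := by
    intro h0
    rw [h0, zero_add] at b5
    apply hy (k₂⁻¹ • Z₂)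
    rw [map_smul, smul_comm, ← smul_sub, b5, smul_smul, inv_mul_cancel₀ b6, one_smul]
  refine Pool.Agent.Y529.NK.ANN.main H T c₁ c₂ r₁ r₂ C₁ C₂ X Y ?_ ?_ ?_ a3 a4 b3 b4 hX0 hY0
  · linarith
  · linarith
  · linarith

/-- summability for larger exponents -/
theorem summable_mono {ι : Type} {s : ι → ℝ} (h0 : ∀ i, 0 ≤ s i) {p p' : ℝ} (hp : 0 < p)
    (hpp : p ≤ p') (hs : Summable fun i => s i ^ p) : Summable fun i => s i ^ p' := by
  have h3 : ∀ᶠ j in cofinite, s j ^ p < 1 :=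
    hs.tendsto_cofinite_zero.eventually (gt_mem_nhds one_pos)
  refine Summable.of_norm_bounded_eventually hs ?_
  filter_upwards [h3] with j hj
  rw [Real.norm_of_nonneg (Real.rpow_nonneg (h0 j) _)]
  have h4 : s j ≤ 1 := by
    by_contra hcon
    push Not at hcon
    have := Real.one_lt_rpow hcon hp
    linarith
  rcases eq_or_lt_of_le (h0 j) with h5 | h5
  · rw [← h5, Real.zero_rpow hp.ne', Real.zero_rpow (by linarith)]
  · exact Real.rpow_le_rpow_of_exponent_ge h5 h4 hpp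

/-- enumeration of sums -/
theorem hasSum_enum {ι M : Type} [AddCommMonoid M] [TopologicalSpace M] {A : Set ι}
    {g : A → ℕ} (hg : Function.Injective g) {F : ι → M} (hF : ∀ i ∉ A, F i = 0) {a : M}
    (h : HasSum F a) {G : ℕ → M} (h1 : ∀ i : A, G (g i) = F i)
    (h2 : ∀ n ∉ range g, G n = 0) : HasSum G a := by
  rw [← hg.hasSum_iff h2]
  have h3 : G ∘ g = F ∘ ((↑) : A → ι) := by
    funext i
    exact h1 i
  rw [h3, hasSum_subtype_iff_of_support_subset]
  · exact h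
  · intro i hi
    by_contra hcon
    exact hi (hF i hcon)

/-- an enumeration of an orthonormal family, completed by zero, satisfies Bessel's inequality -/
theorem bess_enum {H : Type} [NormedAddCommGroup H] [InnerProductSpace ℂ H] {ι : Type}
    {e : ι → H} (he : Orthonormal ℂ e) {A : Set ι} {g : A → ℕ} (hg : Function.Injective g)
    {e' : ℕ → H} (h1 : ∀ i : A, e' (g i) = e i) (h2 : ∀ n ∉ range g, e' n = 0) : Bess e' := by
  intro n x
  have he' : Orthonormal ℂ (fun i : A => e i) := he.comp _ Subtype.val_injective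
  have h3 : HasSum (fun n => ‖⟪e' n, x⟫_ℂ‖ ^ 2) (∑' i : A, ‖⟪e i, x⟫_ℂ‖ ^ 2) := by
    rw [← hg.hasSum_iff]
    · have h4 : (fun n => ‖⟪e' n, x⟫_ℂ‖ ^ 2) ∘ g = fun i : A => ‖⟪e i, x⟫_ℂ‖ ^ 2 := by
        funext i
        show ‖⟪e' (g i), x⟫_ℂ‖ ^ 2 = _
        rw [h1]
      rw [h4]
      exact (he'.inner_products_summable (x := x)).hasSum
    · intro k hk
      rw [h2 k hk, inner_zero_left, norm_zero]
      norm_num
  exact (sum_le_hasSum _ (fun j _ => by positivity) h3).trans (he'.tsum_inner_products_le x)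

/-- sequences from a singular value decomposition -/
theorem exists_seq {H : Type} [NormedAddCommGroup H] [InnerProductSpace ℂ H] {ι : Type}
    {e f : ι → H} (he : Orthonormal ℂ e) (hf : Orthonormal ℂ f) {s : ι → ℝ} (h0 : ∀ i, 0 ≤ s i)
    {p p' : ℝ} (hp : 0 < p) (hpp : p ≤ p') (hs : Summable fun i => s i ^ p) {K : H →L[ℂ] H}
    (hK : ∀ x, HasSum (fun i => ((s i : ℂ) * ⟪e i, x⟫_ℂ) • f i) (K x)) :
    ∃ (σ : ℕ → ℝ) (e' f' : ℕ → H), (∀ j, 0 ≤ σ j) ∧ (Summable fun j => σ j ^ p') ∧ Bess e' ∧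
      Bess f' ∧ ∀ x, HasSum (fun j => ((σ j : ℂ) * ⟪e' j, x⟫_ℂ) • f' j) (K x) := by
  set A : Set ι := Function.support fun i => s i ^ p with hA
  have hAc : A.Countable := hs.countable_support
  have hAe : Countable A := hAc.to_subtype
  obtain ⟨g, hg⟩ := hAe.exists_injective_nat
  have hAs : ∀ i ∉ A, s i = 0 := by
    intro i hi
    rw [hA, Function.notMem_support] at hi
    exact ((Real.rpow_eq_zero (h0 i) hp.ne').1 hi)
  have hp' : p' ≠ 0 := by linarith
  have x1 : ∀ {X : Type} (F : A → X) (Z : ℕ → X) (i : A), Function.extend g F Z (g i) = F i :=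
    fun F Z i => hg.extend_apply F Z i
  have x2 : ∀ {X : Type} (F : A → X) (Z : ℕ → X) (n : ℕ), n ∉ range g →
      Function.extend g F Z n = Z n := by
    intro X F Z n hn
    exact Function.extend_apply' _ _ _ fun ⟨a, ha⟩ => hn ⟨a, ha⟩
  refine ⟨Function.extend g (fun i : A => s i) fun _ => 0,
    Function.extend g (fun i : A => e i) fun _ => 0,
    Function.extend g (fun i : A => f i) fun _ => 0, fun j => ?_, ?_, ?_, ?_, fun x => ?_⟩
  · by_cases hj : j ∈ range g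
    · obtain ⟨i, rfl⟩ := hj
      rw [x1]
      exact h0 i
    · rw [x2 _ _ j hj]
  · refine (hasSum_enum hg (A := A) (F := fun i => s i ^ p') (fun i hi => ?_)
      (summable_mono h0 hp hpp hs).hasSum (fun i => ?_) fun n hn => ?_).summable
    · rw [hAs i hi, Real.zero_rpow hp']
    · rw [x1]
    · rw [x2 _ _ n hn, Real.zero_rpow hp']
  · exact bess_enum he hg (fun i => x1 _ _ i) fun n hn => x2 _ _ n hn
  · exact bess_enum hf hg (fun i => x1 _ _ i) fun n hn => x2 _ _ n hn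
  · refine hasSum_enum hg (A := A) (F := fun i => ((s i : ℂ) * ⟪e i, x⟫_ℂ) • f i)
      (fun i hi => ?_) (hK x) (fun i => ?_) fun n hn => ?_
    · rw [hAs i hi, Complex.ofReal_zero, zero_mul, zero_smul]
    · rw [x1, x1, x1]
    · rw [x2 _ _ n hn, Complex.ofReal_zero, zero_mul, zero_smul]

/-- the theorem for one measure -/
theorem main0 (H : Type) [NormedAddCommGroup H] [InnerProductSpace ℂ H] [CompleteSpace H]
    [TopologicalSpace.SeparableSpace H] (N K : H →L[ℂ] H) (hN : IsStarNormal N) {ι : Type}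
    {e f : ι → H} (he : Orthonormal ℂ e) (hf : Orthonormal ℂ f) {s : ι → ℝ} (h0 : ∀ i, 0 ≤ s i)
    {p : ℝ} (hp : 0 < p) (hp2 : p < 2) (hs : Summable fun i => s i ^ p)
    (hK : ∀ x, HasSum (fun i => ((s i : ℂ) * ⟪e i, x⟫_ℂ) • f i) (K x)) (m : Measure ℂ)
    [SFinite m] (hm : LogBd m) :
    ∀ᵐ t ∂m, ((∃ c : ℂ, N + t • K = c • 1) ∨ HasHyp (N + t • K)) ∧ LocRes (N + t • K) ∧
      LocRes (ContinuousLinearMap.adjoint (N + t • K)) := by
  obtain ⟨σ, e', f', a1, a2, a3, a4, a5⟩ := exists_seq he hf h0 hp (le_max_left p 1) hs hK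
  obtain ⟨m₀, q, δ, γ, r', P⟩ := exists_par (le_max_right p 1) (max_lt hp2 one_lt_two)
  have hK1 : Tendsto (fun n => frs σ e' f' n) atTop (𝓝 K) :=
    tendsto_frs P a1 a2 a3 (norm_le_of_bess a4) a5
  have hK2 : Tendsto (fun n => frs σ f' e' n) atTop (𝓝 (ContinuousLinearMap.adjoint K)) := by
    have h1 : Continuous fun T : H →L[ℂ] H => ContinuousLinearMap.adjoint T :=
      LinearIsometryEquiv.continuous _
    refine ((h1.tendsto K).comp hK1).congr fun n => ?_
    exact inner_frs σ e' f' n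
  have hKc : IsCompactOperator K :=
    isCompactOperator_of_tendsto hK1 (Eventually.of_forall fun n => frs_compact σ e' f' n)
  have hN' : IsStarNormal (ContinuousLinearMap.adjoint N) := by
    have h1 : ContinuousLinearMap.adjoint N = star N := rfl
    rw [h1]
    infer_instance
  have hc : Measurable (starRingEnd ℂ : ℂ → ℂ) := Complex.continuous_conj.measurable
  have hl : Measurable lm := Pool.Agent.Y604.NK.meas_lm
  have g1 := main_loc P H N K hN a1 a2 a3 a4 hK1 m hm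
  have g2 := main_loc P H (ContinuousLinearMap.adjoint N) (ContinuousLinearMap.adjoint K) hN'
    a1 a2 a4 a3 hK2 (m.map (starRingEnd ℂ)) (logBd_conj hm hl)
  filter_upwards [g1, ae_of_ae_map hc.aemeasurable g2] with t h1 h2
  rw [← adj_add_smul] at h2
  exact ⟨fin_hyp hN (hKc.smul t) h1 h2, h1, h2⟩

end Pool.Agent.K1H27.SN
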