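import Pool.Agent.K1H27.SN.Col
import Pool.Agent.K1H27.VM.Stm
import Pool.Agent.Y180.NK.CORE
import Pool.Agent.Y708.NK.RAD
import Pool.Agent.Y487.NK.SEL
import Pool.Agent.Y681.NK.OUTQ
import Pool.Agent.Y454.NK.LIM

/-!
# Project SN: local resolvents
-/

set_option autoImplicit false

namespace Pool.Agent.K1H27.SN

open MeasureTheory Set Metric Filter Topology
open scoped InnerProductSpace ENNReal NNReal ComplexConjugate
open Pool.Agent.Y283.NK (lm LogBd ct MM fr el measurable_det S_INV IsMul)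
open Pool.Agent.Y604.NK (meas_coe lint_sq meas_ct meas_lm meas_det)
open Pool.Agent.K1H27.VM (LocRes)

variable {S : Type} [MeasurableSpace S] {μ : Measure S}
variable {p q δ γ r' : ℝ} {m₀ : ℕ}

theorem step [SigmaFinite μ] (hC : S_CORD) (hI : S_INVP) (P : Par p m₀ q δ γ r')
    {φ : S → ℂ} {N : Lp ℂ 2 μ →L[ℂ] Lp ℂ 2 μ} (hN : IsMul φ N) {e f : ℕ → Lp ℂ 2 μ}
    (he : Bess e) {σ : ℕ → ℝ} (hσ : ∀ j, 0 ≤ σ j) (hs : Summable fun j => σ j ^ p) (n : ℕ)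
    (x : Lp ℂ 2 μ) (t c : ℂ) (r A : ℝ) (hr : 0 < r) (hA0 : 0 ≤ A)
    (hA : (∫⁻ s, (‖x s‖ₑ ^ 2 + ∑' j, ‖vec σ (1 - δ) f j s‖ₑ ^ 2) * (el φ c r s) ^ 2 ∂μ) ≤
      ENNReal.ofReal (A ^ 2)) (B : ℝ≥0) (δ' : ℝ)
    (hδ : ∀ m : ℝ → ℝ≥0∞, Measurable m → (∫⁻ θ in Ioc (0:ℝ) (2 * Real.pi), m θ) ≤ B →
      ∃ h : ℝ → ℂ, Measurable h ∧
        (∀ᵐ θ ∂(volume.restrict (Ioc (0:ℝ) (2 * Real.pi))),
          m θ ≠ ⊤ ∧ ‖h θ‖ ≤ Real.exp (-(m θ).toReal)) ∧
        δ' ≤ ‖∫ θ in (0:ℝ)..(2 * Real.pi), h θ‖ ∧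
        ∀ a : ℕ, (∫ θ in (0:ℝ)..(2 * Real.pi), h θ * (circleMap 0 1 θ) ^ (a + 1)) = 0)
    (hB : (∫⁻ θ in Ioc (0:ℝ) (2 * Real.pi),
      wt φ γ p e f (vec σ (1 - δ) f) (vec σ δ e) σ n x t (circleMap c r θ)) ≤ B) :
    ∃ (X : ℕ → Lp ℂ 2 μ) (Z : Lp ℂ 2 μ) (κ : ℂ),
      (∀ a, (N + t • fr (vec σ (1 - δ) f) (vec σ δ e) n) (X a) - c • X a = X (a + 1)) ∧
      (∀ a, ‖X a‖ ≤ (1 + ‖t‖) * A * r ^ a) ∧
      c • Z - (N + t • fr (vec σ (1 - δ) f) (vec σ δ e) n) Z = X 0 + κ • x ∧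
      ‖Z‖ ≤ (1 + ‖t‖) * A / r ∧ δ' / r ≤ ‖κ‖ ∧ ‖κ‖ ≤ 2 * Real.pi / r := by
  set u : ℕ → Lp ℂ 2 μ := vec σ (1 - δ) f with hu
  set v : ℕ → Lp ℂ 2 μ := vec σ δ e with hv
  have mc : ∀ g f : Lp ℂ 2 μ, Measurable (ct φ g f) := fun g f => meas_ct hN.meas g f
  have hcm : Measurable (circleMap c r) := (continuous_circleMap c r).measurable
  set m : ℝ → ℝ≥0∞ := fun θ => wt φ γ p e f u v σ n x t (circleMap c r θ) with hmdef
  have hm : Measurable m := (meas_wt hN.meas γ p e f u v σ n x t).comp hcm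
  obtain ⟨h, hh, hle, hlow, hmom⟩ := hδ m hm hB
  set G : Set ℝ := {θ | m θ ≠ ⊤ ∧ ‖h θ‖ ≤ Real.exp (-(m θ).toReal)} with hG
  have hGm : MeasurableSet G := by
    refine MeasurableSet.inter ?_ ?_
    · exact (hm (measurableSet_singleton ⊤)).compl
    · exact measurableSet_le hh.norm (Real.measurable_exp.comp hm.ennreal_toReal.neg)
  have hGae : ∀ᵐ θ ∂(volume.restrict (Ioc (0:ℝ) (2 * Real.pi))), θ ∈ G := hle
  set MMz : ℝ → Matrix (Fin n) (Fin n) ℂ := fun θ => MM φ u v n t (circleMap c r θ) with hMMz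
  set bz : ℝ → Fin n → ℂ := fun θ i => ct φ (v i) x (circleMap c r θ) with hbz
  set cr : ℝ → Fin n → ℂ := fun θ => ((MMz θ).det)⁻¹ • Matrix.cramer (MMz θ) (bz θ) with hcr
  have hMMe : ∀ i j, Measurable fun θ => MMz θ i j := by
    intro i j
    have e1 : (fun θ => MMz θ i j) = fun θ => (1 : Matrix (Fin n) (Fin n) ℂ) i j -
        t * ct φ (v i) (u j) (circleMap c r θ) := by
      funext θ
      simp [hMMz, MM]
    rw [e1]
    exact measurable_const.sub (measurable_const.mul ((mc (v i) (u j)).comp hcm))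
  have hbm : ∀ i, Measurable fun θ => bz θ i := fun i => (mc (v i) x).comp hcm
  have hcrm : ∀ i, Measurable fun θ => cr θ i := by
    intro i
    have e1 : (fun θ => cr θ i) = fun θ => ((MMz θ).det)⁻¹ * ((MMz θ).updateCol i (bz θ)).det := by
      funext θ
      simp [hcr, Matrix.cramer_apply]
    rw [e1]
    refine (measurable_det hMMe).inv.mul (measurable_det fun k l => ?_)
    by_cases hl : l = i
    · subst hl
      simpa using hbm k
    · have e2 : (fun θ => (MMz θ).updateCol i (bz θ) k l) = fun θ => MMz θ k l := by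
        funext θ
        rw [Matrix.updateCol_ne hl]
      rw [e2]
      exact hMMe k l
  -- properties on the good set
  have hgood : ∀ θ ∈ G, (MMz θ).mulVec (cr θ) = bz θ ∧
      ‖h θ‖ ^ 2 * (∑ i, ‖cr θ i‖ ^ 2) ≤ 1 ∧ ‖h θ‖ ≤ 1 := by
    intro θ hθ
    obtain ⟨h1, h2⟩ := hθ
    obtain ⟨w1, w2, w3, w4, w5⟩ := wt_fin hσ h1
    have w4' : (MMz θ).det ≠ 0 := by
      intro h0
      apply w4
      unfold fd
      have h0' : (1 - t • XX φ u v n (circleMap c r θ)).det = 0 := h0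
      rw [h0', zero_mul]
    have hmul : (MMz θ).mulVec (cr θ) = bz θ := by
      rw [hcr]
      simp only
      rw [Matrix.mulVec_smul, Matrix.mulVec_cramer, smul_smul, inv_mul_cancel₀ w4', one_smul]
    have hb := hI.1 n (XX φ u v n (circleMap c r θ)) t r' (bz θ) (cr θ) P.r1 P.r2 w4' hmul
    have hcols := cols_le hC P hN.meas he hσ hs (circleMap c r θ) w1 w3 n
    have hrhs := rhs_le hC P hN.meas he hσ (circleMap c r θ) w1 x w2 n
    have ht1 : 1 ≤ 1 + ‖t‖ := by linarith [norm_nonneg t]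
    have hL : 3 * ∑ j, (‖t‖ * col (XX φ u v n (circleMap c r θ)) j) ^ r' ≤
        3 * (1 + ‖t‖) ^ 2 * ((∑' j, σ j ^ p) * (1 + (sg φ 1 e σ p (circleMap c r θ)).toReal) +
          (sg φ γ f σ p (circleMap c r θ)).toReal) := by
      have h3 : ∑ j, (‖t‖ * col (XX φ u v n (circleMap c r θ)) j) ^ r' ≤
          (1 + ‖t‖) ^ 2 * ∑ j, col (XX φ u v n (circleMap c r θ)) j ^ r' := by
        rw [Finset.mul_sum]
        refine Finset.sum_le_sum fun j _ => ?_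
        have hc0 : 0 ≤ col (XX φ u v n (circleMap c r θ)) j := Real.sqrt_nonneg _
        rw [Real.mul_rpow (norm_nonneg _) hc0]
        refine mul_le_mul_of_nonneg_right ?_ (Real.rpow_nonneg hc0 _)
        calc ‖t‖ ^ r' ≤ (1 + ‖t‖) ^ r' :=
              Real.rpow_le_rpow (norm_nonneg _) (by linarith) P.r0.le
          _ ≤ (1 + ‖t‖) ^ (2 : ℝ) := Real.rpow_le_rpow_of_exponent_le ht1 P.r2
          _ = (1 + ‖t‖) ^ 2 := by
              rw [show (2:ℝ) = ((2:ℕ):ℝ) by norm_num, Real.rpow_natCast]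
      rw [mul_assoc]
      refine mul_le_mul_of_nonneg_left (h3.trans ?_) (by norm_num)
      exact mul_le_mul_of_nonneg_left hcols (by positivity)
    have hnum := num (Pt := (sg φ 1 e σ p (circleMap c r θ)).toReal)
      (E := (eg φ γ x (circleMap c r θ)).toReal) (κ := 3 * (1 + ‖t‖) ^ 2)
      ENNReal.toReal_nonneg ENNReal.toReal_nonneg (norm_pos_iff.2 w4) hrhs (Real.sqrt_nonneg _)
      hL hb w5
    have h3 : ‖h θ‖ * Real.sqrt (∑ i, ‖cr θ i‖ ^ 2) ≤ 1 := by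
      calc ‖h θ‖ * Real.sqrt (∑ i, ‖cr θ i‖ ^ 2) ≤
            Real.exp (-(m θ).toReal) * Real.sqrt (∑ i, ‖cr θ i‖ ^ 2) :=
            mul_le_mul_of_nonneg_right h2 (Real.sqrt_nonneg _)
        _ ≤ 1 := hnum
    have h4 : 0 ≤ ∑ i, ‖cr θ i‖ ^ 2 := Finset.sum_nonneg fun i _ => by positivity
    refine ⟨hmul, ?_, ?_⟩
    · have h5 : ‖h θ‖ ^ 2 * (∑ i, ‖cr θ i‖ ^ 2) = (‖h θ‖ * Real.sqrt (∑ i, ‖cr θ i‖ ^ 2)) ^ 2 := by
        rw [mul_pow, Real.sq_sqrt h4]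
      rw [h5]
      exact pow_le_one₀ (by positivity) h3
    · refine h2.trans ?_
      rw [Real.exp_le_one_iff]
      simp
  set h' : ℝ → ℂ := G.indicator h with hh'
  set g : ℕ → ℝ → ℂ := fun j θ => if hj : j < n then G.indicator (fun θ => h θ * cr θ ⟨j, hj⟩) θ
    else 0 with hg
  have hh'm : Measurable h' := hh.indicator hGm
  have hgm : ∀ j, Measurable (g j) := by
    intro j
    by_cases hj : j < n
    · have e1 : g j = G.indicator (fun θ => h θ * cr θ ⟨j, hj⟩) := by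
        funext θ; simp only [hg, dif_pos hj]
      rw [e1]
      exact (hh.mul (hcrm ⟨j, hj⟩)).indicator hGm
    · have e1 : g j = fun _ => 0 := by
        funext θ; simp only [hg, dif_neg hj]
      rw [e1]
      exact measurable_const
  have hh'1 : ∀ θ, ‖h' θ‖ ≤ 1 := by
    intro θ
    by_cases hθ : θ ∈ G
    · rw [hh', indicator_of_mem hθ]; exact (hgood θ hθ).2.2
    · rw [hh', indicator_of_notMem hθ]; simp
  have hgval : ∀ θ ∈ G, ∀ i : Fin n, g i θ = h θ * cr θ i := by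
    intro θ hθ i
    simp only [hg, dif_pos i.2, indicator_of_mem hθ]
  have hg1 : ∀ θ, ∑ j ∈ Finset.range n, ‖g j θ‖ ^ 2 ≤ 1 := by
    intro θ
    rw [Finset.sum_range]
    by_cases hθ : θ ∈ G
    · calc ∑ i : Fin n, ‖g i θ‖ ^ 2 = ‖h θ‖ ^ 2 * ∑ i, ‖cr θ i‖ ^ 2 := by
            rw [Finset.mul_sum]
            refine Finset.sum_congr rfl fun i _ => ?_
            rw [hgval θ hθ i, norm_mul, mul_pow]
        _ ≤ 1 := (hgood θ hθ).2.1
    · have e1 : ∀ i : Fin n, g i θ = 0 := by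
        intro i
        simp only [hg, dif_pos i.2, indicator_of_notMem hθ]
      simp [e1]
  have hrel : ∀ᵐ θ ∂(volume.restrict (Ioc (0:ℝ) (2 * Real.pi))), ∀ i < n,
      h' θ * ct φ (v i) x (circleMap c r θ) +
        t * ∑ j ∈ Finset.range n, ct φ (v i) (u j) (circleMap c r θ) * g j θ = g i θ := by
    filter_upwards [hGae] with θ hθ i hi
    have e1 := congrFun (hgood θ hθ).1 ⟨i, hi⟩
    rw [hMMz] at e1
    simp only [MM] at e1
    rw [Matrix.sub_mulVec, Matrix.one_mulVec, Matrix.smul_mulVec] at e1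
    simp only [Pi.sub_apply, Pi.smul_apply, smul_eq_mul, Matrix.mulVec, dotProduct,
      Matrix.of_apply, hbz] at e1
    rw [Finset.sum_range, hh', indicator_of_mem hθ]
    have e2 : g i θ = h θ * cr θ ⟨i, hi⟩ := hgval θ hθ ⟨i, hi⟩
    rw [e2, ← e1]
    have e3 : ∑ j : Fin n, ct φ (v i) (u j) (circleMap c r θ) * g j θ =
        h θ * ∑ j : Fin n, ct φ (v i) (u j) (circleMap c r θ) * cr θ j := by
      rw [Finset.mul_sum]
      refine Finset.sum_congr rfl fun j _ => ?_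
      rw [hgval θ hθ j]; ring
    rw [e3]
    ring
  have hpi : (0:ℝ) ≤ 2 * Real.pi := by positivity
  have hint : ∀ F : ℝ → ℂ → ℂ, (∫ θ in (0:ℝ)..(2 * Real.pi), F θ (h' θ)) =
      ∫ θ in (0:ℝ)..(2 * Real.pi), F θ (h θ) := by
    intro F
    rw [intervalIntegral.integral_of_le hpi, intervalIntegral.integral_of_le hpi]
    refine integral_congr_ae ?_
    filter_upwards [hGae] with θ hθ
    rw [hh', indicator_of_mem hθ]
  have hmom' : ∀ a : ℕ,
      (∫ θ in (0:ℝ)..(2 * Real.pi), h' θ * (circleMap 0 1 θ) ^ (a + 1)) = 0 := by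
    intro a
    rw [hint (fun θ w => w * (circleMap 0 1 θ) ^ (a + 1))]
    exact hmom a
  obtain ⟨X, Z, x1, x2, x3, x4⟩ := Pool.Agent.Y180.NK.CORE.main S μ φ N hN u v n x t c r A h' g
    hr hA0 hA hh'm hgm hh'1 hg1 hrel hmom'
  refine ⟨X, Z, _, x1, x2, x3, x4, ?_, ?_⟩
  · rw [norm_mul, norm_neg, norm_div, norm_one, Complex.norm_real, Real.norm_eq_abs,
      abs_of_pos hr, hint (fun θ w => w)]
    rw [div_eq_mul_one_div, mul_comm]
    gcongr
  · rw [norm_mul, norm_neg, norm_div, norm_one, Complex.norm_real, Real.norm_eq_abs,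
      abs_of_pos hr]
    have e1 : ‖∫ θ in (0:ℝ)..(2 * Real.pi), h' θ‖ ≤ 1 * |2 * Real.pi - 0| :=
      intervalIntegral.norm_integral_le_of_norm_le_const fun θ _ => hh'1 θ
    rw [sub_zero, abs_of_nonneg hpi, one_mul] at e1
    calc 1 / r * ‖∫ θ in (0:ℝ)..(2 * Real.pi), h' θ‖ ≤ 1 / r * (2 * Real.pi) := by gcongr
      _ = 2 * Real.pi / r := by ring

/-- integrals of sums are finite -/
theorem fin_add {ν : Measure ℂ} {F G : ℂ → ℝ≥0∞} (mF : Measurable F) (hF : ∫⁻ z, F z ∂ν ≠ ⊤)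
    (hG : ∫⁻ z, G z ∂ν ≠ ⊤) : ∫⁻ z, (F z + G z) ∂ν ≠ ⊤ := by
  rw [lintegral_add_left mF]
  exact ENNReal.add_ne_top.2 ⟨hF, hG⟩

/-- integrals of multiples are finite -/
theorem fin_mul {ν : Measure ℂ} {F : ℂ → ℝ≥0∞} (mF : Measurable F) (hF : ∫⁻ z, F z ∂ν ≠ ⊤)
    {c : ℝ≥0∞} (hc : c ≠ ⊤) : ∫⁻ z, c * F z ∂ν ≠ ⊤ := by
  rw [lintegral_const_mul _ mF]
  exact ENNReal.mul_ne_top hc hF

/-- integrals of constants are finite -/
theorem fin_const {ν : Measure ℂ} (hν : ν univ ≠ ⊤) {c : ℝ≥0∞} (hc : c ≠ ⊤) :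
    ∫⁻ _, c ∂ν ≠ ⊤ := by
  rw [lintegral_const]
  exact ENNReal.mul_ne_top hc hν

theorem vec_norm {σ : ℕ → ℝ} (hσ : ∀ j, 0 ≤ σ j) {H : Type} [NormedAddCommGroup H]
    [InnerProductSpace ℂ H] {f : ℕ → H} (hf : ∀ j, ‖f j‖ ≤ 1) (d : ℝ) (j : ℕ) :
    ‖vec σ d f j‖ ≤ σ j ^ d := by
  unfold vec
  rw [norm_smul, Complex.norm_real, Real.norm_of_nonneg (Real.rpow_nonneg (hσ j) _)]
  calc σ j ^ d * ‖f j‖ ≤ σ j ^ d * 1 := by
        gcongr
        · exact Real.rpow_nonneg (hσ j) _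
        · exact hf j
    _ = _ := mul_one _

/-- the vectors `u j` are square summable -/
theorem summ_u (P : Par p m₀ q δ γ r') {σ : ℕ → ℝ} (hσ : ∀ j, 0 ≤ σ j)
    (hs : Summable fun j => σ j ^ p) {H : Type} [NormedAddCommGroup H]
    [InnerProductSpace ℂ H] {f : ℕ → H} (hf : ∀ j, ‖f j‖ ≤ 1) :
    Summable fun j => ‖vec σ (1 - δ) f j‖ ^ 2 := by
  have h1 : Summable fun j => (σ j ^ (1 - δ)) ^ 2 := by
    -- `(1 - δ) r = p`, `r ≤ 2`
    have h2 : Summable fun j => (σ j ^ (1 - δ)) ^ r' := by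
      refine hs.congr fun j => ?_
      rw [← Real.rpow_mul (hσ j), P.mr]
    have h3 : ∀ᶠ j in cofinite, (σ j ^ (1 - δ)) ^ r' < 1 :=
      h2.tendsto_cofinite_zero.eventually (gt_mem_nhds one_pos)
    refine Summable.of_norm_bounded_eventually h2 ?_
    filter_upwards [h3] with j hj
    have h0 : 0 ≤ σ j ^ (1 - δ) := Real.rpow_nonneg (hσ j) _
    rw [Real.norm_of_nonneg (by positivity)]
    have h4 : σ j ^ (1 - δ) ≤ 1 := by
      by_contra hcon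
      push Not at hcon
      have := Real.one_lt_rpow hcon P.r0
      linarith
    rcases eq_or_lt_of_le h0 with h5 | h5
    · rw [← h5, Real.zero_rpow P.r0.ne']
      norm_num
    · rw [← Real.rpow_natCast]
      exact Real.rpow_le_rpow_of_exponent_ge h5 h4 (by push_cast; exact P.r2)
  refine Summable.of_nonneg_of_le (fun j => by positivity) (fun j => ?_) h1
  exact pow_le_pow_left₀ (norm_nonneg _) (vec_norm hσ hf _ j) 2

/-- integrated local resolvents -/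
theorem loc [SigmaFinite μ] (hC : S_CORD) (hI : S_INVP) (hAG : S_AREAG) (P : Par p m₀ q δ γ r')
    {φ : S → ℂ} {N : Lp ℂ 2 μ →L[ℂ] Lp ℂ 2 μ} (hN : IsMul φ N) {e f : ℕ → Lp ℂ 2 μ}
    (he : Bess e) (hf : Bess f) {σ : ℕ → ℝ} (hσ : ∀ j, 0 ≤ σ j)
    (hs : Summable fun j => σ j ^ p) {K : Lp ℂ 2 μ →L[ℂ] Lp ℂ 2 μ}
    (hK : Tendsto (fun n => fr (vec σ (1 - δ) f) (vec σ δ e) n) atTop (𝓝 K)) (t : ℂ)
    (ht : ∀ l : ℕ, ∃ (I : Set ℕ) (B : ℝ≥0), I.Infinite ∧ ∀ n ∈ I,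
      ∫⁻ z in ball (0:ℂ) l, lm ‖fd (XX φ (vec σ (1 - δ) f) (vec σ δ e) n z) t‖ ≤ B) :
    LocRes (N + t • K) := by
  intro x c ρ hρ
  have he1 := norm_le_of_bess he
  have hf1 := norm_le_of_bess hf
  set u : ℕ → Lp ℂ 2 μ := vec σ (1 - δ) f with hu
  set v : ℕ → Lp ℂ 2 μ := vec σ δ e with hv
  obtain ⟨l, hl⟩ := exists_nat_gt (‖c‖ + ρ)
  have hcR : closedBall c ρ ⊆ ball (0:ℂ) l := by
    intro z hz
    rw [mem_closedBall, dist_eq_norm] at hz
    rw [mem_ball_zero_iff]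
    have : ‖z‖ ≤ ‖z - c‖ + ‖c‖ := by
      calc ‖z‖ = ‖(z - c) + c‖ := by rw [sub_add_cancel]
        _ ≤ _ := norm_add_le _ _
    linarith
  obtain ⟨I, B, hIi, hIB⟩ := ht l
  -- area integral of the weight
  have hw0 : ∫⁻ z in ball (0:ℂ) l, wt0 φ γ p e f σ x t z ≠ ⊤ := by
    have i1 := sg_ball hAG hN.meas (γ := 1) zero_le_one one_lt_two he1 hσ hs (l:ℝ)
    have i2 := sg_ball hAG hN.meas (γ := γ) P.γ0 P.γ2 hf1 hσ hs (l:ℝ)
    have i3 : ∫⁻ z in ball (0:ℂ) l, eg φ γ x z ≠ ⊤ := by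
      obtain ⟨C, hC⟩ := hAG l γ P.γ0 P.γ2
      exact ne_top_of_le_ne_top (ENNReal.mul_ne_top ENNReal.coe_ne_top ENNReal.ofReal_ne_top)
        (eg_ball hN.meas γ x l C hC)
    have m1 := meas_sg hN.meas 1 e σ p
    have m2 := meas_sg hN.meas γ f σ p
    have m3 := meas_eg hN.meas γ x
    have hvol : volume (ball (0:ℂ) (l:ℝ)) ≠ ⊤ := measure_ball_lt_top.ne
    have hv1 : (volume.restrict (ball (0:ℂ) (l:ℝ))) univ ≠ ⊤ := by
      rw [Measure.restrict_apply MeasurableSet.univ, univ_inter]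
      exact hvol
    have mone : Measurable fun _ : ℂ => (1:ℝ≥0∞) := measurable_const
    have c1 := fin_const hv1 ENNReal.one_ne_top
    have a1 := fin_add mone c1 (fin_add m1 i1 i3)
    have a2 := fin_add mone c1 i1
    have m4 : Measurable fun z => 1 + sg φ 1 e σ p z := mone.add m1
    have m5 : Measurable fun z => ENNReal.ofReal (∑' j, σ j ^ p) * (1 + sg φ 1 e σ p z) :=
      m4.const_mul _
    have a3 := fin_add m5 (fin_mul m4 a2 ENNReal.ofReal_ne_top) i2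
    exact fin_add (mone.add (m1.add m3)) a1 (fin_mul (m5.add m2) a3 ENNReal.ofReal_ne_top)
  obtain ⟨B0, hB0⟩ : ∃ B0 : ℝ≥0, (B0 : ℝ≥0∞) = _ := ⟨_, ENNReal.coe_toNNReal hw0⟩
  have hIB' : ∀ n ∈ I, ∫⁻ z in ball (0:ℂ) l, wt φ γ p e f u v σ n x t z ≤
      ((B0 + B : ℝ≥0) : ℝ≥0∞) := by
    intro n hn
    have e1 : ∫⁻ z in ball (0:ℂ) l, wt φ γ p e f u v σ n x t z =
        (∫⁻ z in ball (0:ℂ) l, wt0 φ γ p e f σ x t z) +
          ∫⁻ z in ball (0:ℂ) l, lm ‖fd (XX φ u v n z) t‖ := by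
      rw [← lintegral_add_left (meas_wt0 hN.meas γ p e f σ x t)]
      rfl
    rw [e1, ENNReal.coe_add, hB0]
    gcongr
    exact hIB n hn
  have h1 := Pool.Agent.Y708.NK.main S μ φ hN.meas u x c ρ hρ (summ_u P hσ hs hf1)
  have h3 := Pool.Agent.Y487.NK.main_csel l (fun n z => wt φ γ p e f u v σ n x t z) I (B0 + B) c ρ
    (fun n => meas_wt hN.meas γ p e f u v σ n x t) hIi hIB' hρ hcR
  have : NeBot (ae (volume.restrict (Ioc (ρ / 2) ρ))) := by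
    rw [ae_neBot]
    intro h
    have := Measure.restrict_eq_zero.1 h
    rw [Real.volume_Ioc, ENNReal.ofReal_eq_zero] at this
    linarith
  obtain ⟨r, ⟨⟨h1a, -⟩, J, B', hJ, hJI, hJB⟩, hr⟩ :=
    ((h1.and h3).and (ae_restrict_mem measurableSet_Ioc)).exists
  have hr0 : 0 < r := by linarith [hr.1]
  obtain ⟨δ', hδ0, hδ⟩ := Pool.Agent.Y681.NK.OUTQ.main B'
  set A : ℝ := Real.sqrt (∫⁻ s, (‖x s‖ₑ ^ 2 + ∑' j, ‖u j s‖ₑ ^ 2) * (el φ c r s) ^ 2 ∂μ).toReal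
    with hAdef
  have hA0 : 0 ≤ A := Real.sqrt_nonneg _
  have hA : (∫⁻ s, (‖x s‖ₑ ^ 2 + ∑' j, ‖u j s‖ₑ ^ 2) * (el φ c r s) ^ 2 ∂μ) ≤
      ENNReal.ofReal (A ^ 2) := by
    rw [hAdef, Real.sq_sqrt ENNReal.toReal_nonneg, ENNReal.ofReal_toReal h1a]
  have hstep : ∀ n : ℕ, ∃ (X : ℕ → Lp ℂ 2 μ) (Z : Lp ℂ 2 μ) (κ : ℂ), n ∈ J →
      (∀ a, (N + t • fr u v n) (X a) - c • X a = X (a + 1)) ∧
      (∀ a, ‖X a‖ ≤ (1 + ‖t‖) * A * r ^ a) ∧
      c • Z - (N + t • fr u v n) Z = X 0 + κ • x ∧ ‖Z‖ ≤ (1 + ‖t‖) * A / r ∧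
      δ' / r ≤ ‖κ‖ ∧ ‖κ‖ ≤ 2 * Real.pi / r := by
    intro n
    by_cases hn : n ∈ J
    · obtain ⟨X, Z, k, h⟩ := step hC hI P hN he hσ hs (f := f) n x t c r A hr0 hA0 hA B' δ' hδ
        (hJB n hn)
      exact ⟨X, Z, k, fun _ => h⟩
    · exact ⟨fun _ => 0, 0, 0, fun h => absurd h hn⟩
  choose X Z k hXZ using hstep
  set C : ℝ := (1 + ‖t‖) * A + (1 + ‖t‖) * A / r + 2 * Real.pi / r with hC'
  have p1 : 0 ≤ (1 + ‖t‖) * A := by positivity
  have p2 : 0 ≤ (1 + ‖t‖) * A / r := by positivity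
  have p3 : 0 ≤ 2 * Real.pi / r := by positivity
  have hlimT : Tendsto (fun n => N + t • fr u v n) atTop (𝓝 (N + t • K)) :=
    (hK.const_smul t).const_add N
  obtain ⟨Y, W, κ', y1, y2, y3, y4⟩ := Pool.Agent.Y454.NK.main (Lp ℂ 2 μ) (N + t • K)
    (fun n => N + t • fr u v n) c r
    C (δ' / r) x X Z k J hJ hr0.le (by positivity) hlimT (fun n hn => (hXZ n hn).1)
    (fun n hn a => ((hXZ n hn).2.1 a).trans (by
      have : 0 ≤ r ^ a := by positivity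
      exact mul_le_mul_of_nonneg_right (by rw [hC']; linarith) this))
    (fun n hn => (hXZ n hn).2.2.1)
    (fun n hn => (hXZ n hn).2.2.2.1.trans (by rw [hC']; linarith))
    (fun n hn => ⟨(hXZ n hn).2.2.2.2.1, (hXZ n hn).2.2.2.2.2.trans (by rw [hC']; linarith)⟩)
  exact ⟨r, C, Y, W, κ', hr.1, hr.2, y1, y2, y3, y4⟩

/-- almost every coupling is good -/
theorem gen [SigmaFinite μ] (hC : S_CORD) (hI : S_INVP) (hAG : S_AREAG) (P : Par p m₀ q δ γ r')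
    {φ : S → ℂ} (hφ : Measurable φ) {e f : ℕ → Lp ℂ 2 μ}
    (he : Bess e) (hf : Bess f) {σ : ℕ → ℝ} (hσ : ∀ j, 0 ≤ σ j)
    (hs : Summable fun j => σ j ^ p) (m : Measure ℂ) [SFinite m] (hm : LogBd m) :
    ∀ᵐ t ∂m, ∀ l : ℕ, ∃ (I : Set ℕ) (B : ℝ≥0), I.Infinite ∧ ∀ n ∈ I,
      ∫⁻ z in ball (0:ℂ) l, lm ‖fd (XX φ (vec σ (1 - δ) f) (vec σ δ e) n z) t‖ ≤ B := by
  set u : ℕ → Lp ℂ 2 μ := vec σ (1 - δ) f with hu
  set v : ℕ → Lp ℂ 2 μ := vec σ δ e with hv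
  have main : ∀ R R' : ℝ, ∀ᵐ t ∂(m.restrict (ball (0:ℂ) R)), ∃ (I : Set ℕ) (B : ℝ≥0),
      I.Infinite ∧ ∀ n ∈ I, ∫⁻ z in ball (0:ℂ) R', lm ‖fd (XX φ u v n z) t‖ ≤ B := by
    intro R R'
    obtain ⟨C, hCC⟩ := hI.2 m hm R
    have hC0 : 0 ≤ ∑' j, σ j ^ p := tsum_nonneg fun j => Real.rpow_nonneg (hσ j) _
    have key : ∀ (n : ℕ) (z : ℂ), ∫⁻ t in ball (0:ℂ) R, lm ‖fd (XX φ u v n z) t‖ ∂m ≤
        (C + 1) * ((ENNReal.ofReal (∑' j, σ j ^ p) + 1) * (1 + sg φ 1 e σ p z) +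
          sg φ γ f σ p z) := by
      intro n z
      by_cases h1 : sg φ 1 e σ p z = ⊤
      · rw [h1, add_top, ENNReal.mul_top (by simp), top_add,
          ENNReal.mul_top (by simp)]
        exact le_top
      by_cases h2 : sg φ γ f σ p z = ⊤
      · rw [h2, add_top, ENNReal.mul_top (by simp)]
        exact le_top
      have hcols := cols_le hC P hφ he hσ hs z h1 h2 n
      have hP0 : 0 ≤ (sg φ 1 e σ p z).toReal := ENNReal.toReal_nonneg
      refine (hCC n _ r' _ P.r1 P.r2 hcols).trans ?_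
      have h3 : ENNReal.ofReal ((∑' j, σ j ^ p) * (1 + (sg φ 1 e σ p z).toReal) +
          (sg φ γ f σ p z).toReal + 1) ≤
          (ENNReal.ofReal (∑' j, σ j ^ p) + 1) * (1 + sg φ 1 e σ p z) + sg φ γ f σ p z := by
        rw [ENNReal.ofReal_add (by positivity) zero_le_one,
          ENNReal.ofReal_add (by positivity) ENNReal.toReal_nonneg, ENNReal.ofReal_toReal h2,
          ENNReal.ofReal_mul hC0, ENNReal.ofReal_add zero_le_one hP0, ENNReal.ofReal_toReal h1,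
          ENNReal.ofReal_one]
        calc ENNReal.ofReal (∑' j, σ j ^ p) * (1 + sg φ 1 e σ p z) + sg φ γ f σ p z + 1
            = ENNReal.ofReal (∑' j, σ j ^ p) * (1 + sg φ 1 e σ p z) + 1 + sg φ γ f σ p z := by
              ring
          _ ≤ ENNReal.ofReal (∑' j, σ j ^ p) * (1 + sg φ 1 e σ p z) + (1 + sg φ 1 e σ p z) +
              sg φ γ f σ p z := by
              gcongr
              exact le_self_add
          _ = _ := by ring
      exact mul_le_mul' le_self_add h3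
    have hfin : ∫⁻ z in ball (0:ℂ) R', (C + 1) * ((ENNReal.ofReal (∑' j, σ j ^ p) + 1) *
        (1 + sg φ 1 e σ p z) + sg φ γ f σ p z) ≠ ⊤ := by
      have i1 := sg_ball hAG hφ (γ := 1) zero_le_one one_lt_two (norm_le_of_bess he) hσ hs R'
      have i2 := sg_ball hAG hφ (γ := γ) P.γ0 P.γ2 (norm_le_of_bess hf) hσ hs R'
      have m1 := meas_sg hφ 1 e σ p
      have m2 := meas_sg hφ γ f σ p
      have hvol : volume (ball (0:ℂ) R') ≠ ⊤ := measure_ball_lt_top.ne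
      have hv1 : (volume.restrict (ball (0:ℂ) R')) univ ≠ ⊤ := by
        rw [Measure.restrict_apply MeasurableSet.univ, univ_inter]
        exact hvol
      have mone : Measurable fun _ : ℂ => (1:ℝ≥0∞) := measurable_const
      have c1 := fin_const hv1 ENNReal.one_ne_top
      have a2 := fin_add mone c1 i1
      have m4 : Measurable fun z => 1 + sg φ 1 e σ p z := mone.add m1
      have m5 : Measurable fun z => (ENNReal.ofReal (∑' j, σ j ^ p) + 1) *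
        (1 + sg φ 1 e σ p z) := m4.const_mul _
      have a3 := fin_add m5 (fin_mul m4 a2 (by simp)) i2
      exact fin_mul (m5.add m2) a3 (by simp)
    obtain ⟨C', hC'⟩ : ∃ C' : ℝ≥0, (C' : ℝ≥0∞) = _ := ⟨_, ENNReal.coe_toNNReal hfin⟩
    refine Pool.Agent.Y487.NK.main_sel m R R' (fun n z t => lm ‖fd (XX φ u v n z) t‖) C'
      (fun n => ?_) (fun n => ?_)
    · exact meas_lm.comp (meas_fd hφ u v n).norm
    · rw [hC']
      exact lintegral_mono fun z => key n z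
  have hall : ∀ᵐ t ∂m, ∀ k l : ℕ, t ∈ ball (0:ℂ) k → ∃ (I : Set ℕ) (B : ℝ≥0), I.Infinite ∧
      ∀ n ∈ I, ∫⁻ z in ball (0:ℂ) l, lm ‖fd (XX φ u v n z) t‖ ≤ B := by
    rw [ae_all_iff]
    intro k
    rw [ae_all_iff]
    intro l
    rw [← ae_restrict_iff' measurableSet_ball]
    exact main k l
  filter_upwards [hall] with t ht l
  obtain ⟨k, hk⟩ := exists_nat_gt ‖t‖
  exact ht k l (by rw [mem_ball_zero_iff]; exact hk)

end Pool.Agent.K1H27.SN
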