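import Pool.Agent.K1H27.SN.Stm
import Pool.Agent.Y604.NK.MEAS

/-!
# Project SN: potentials and column bounds
-/

set_option autoImplicit false

namespace Pool.Agent.K1H27.SN

open MeasureTheory Set Metric Filter Topology
open scoped InnerProductSpace ENNReal NNReal ComplexConjugate
open Pool.Agent.Y283.NK (lm LogBd ct MM fr)
open Pool.Agent.Y604.NK (meas_coe lint_sq)

variable {S : Type} [MeasurableSpace S] {μ : Measure S}

/-- the potential of `|f|² μ` with the exponent `γ` -/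
noncomputable def eg (φ : S → ℂ) (γ : ℝ) (f : Lp ℂ 2 μ) (z : ℂ) : ℝ≥0∞ :=
  ∫⁻ s, ‖f s‖ₑ ^ 2 * (‖z - φ s‖ₑ⁻¹) ^ γ ∂μ

/-- the sum of the potentials with weights -/
noncomputable def sg (φ : S → ℂ) (γ : ℝ) (e : ℕ → Lp ℂ 2 μ) (σ : ℕ → ℝ) (p : ℝ) (z : ℂ) :
    ℝ≥0∞ :=
  ∑' j, ENNReal.ofReal (σ j ^ p) * eg φ γ (e j) z

theorem meas_eg2 {φ : S → ℂ} (hφ : Measurable φ) (γ : ℝ) (f : Lp ℂ 2 μ) :
    Measurable (fun p : ℂ × S => ‖f p.2‖ₑ ^ 2 * (‖p.1 - φ p.2‖ₑ⁻¹) ^ γ) := by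
  have h1 : Measurable (fun p : ℂ × S => f p.2) := (meas_coe f).comp measurable_snd
  have h2 : Measurable (fun p : ℂ × S => p.1 - φ p.2) :=
    measurable_fst.sub (hφ.comp measurable_snd)
  exact (h1.enorm.pow_const 2).mul (h2.enorm.inv.pow_const γ)

theorem meas_eg [SigmaFinite μ] {φ : S → ℂ} (hφ : Measurable φ) (γ : ℝ) (f : Lp ℂ 2 μ) :
    Measurable (eg φ γ f) := by
  unfold eg
  exact Measurable.lintegral_prod_right'
    (f := fun p : ℂ × S => ‖f p.2‖ₑ ^ 2 * (‖p.1 - φ p.2‖ₑ⁻¹) ^ γ) (meas_eg2 hφ γ f)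

theorem meas_sg [SigmaFinite μ] {φ : S → ℂ} (hφ : Measurable φ) (γ : ℝ) (e : ℕ → Lp ℂ 2 μ)
    (σ : ℕ → ℝ) (p : ℝ) : Measurable (sg φ γ e σ p) :=
  Measurable.tsum fun j => (meas_eg hφ γ (e j)).const_mul _

theorem eg_ball [SigmaFinite μ] {φ : S → ℂ} (hφ : Measurable φ) (γ : ℝ) (f : Lp ℂ 2 μ) (R : ℝ)
    (C : ℝ≥0) (hC : ∀ w : ℂ, ∫⁻ z in ball (0:ℂ) R, (‖z - w‖ₑ⁻¹) ^ γ ≤ C) :
    ∫⁻ z in ball (0:ℂ) R, eg φ γ f z ≤ C * ENNReal.ofReal (‖f‖ ^ 2) := by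
  unfold eg
  rw [lintegral_lintegral_swap (f := fun (z : ℂ) (s : S) => ‖f s‖ₑ ^ 2 * (‖z - φ s‖ₑ⁻¹) ^ γ)
    (meas_eg2 hφ γ f).aemeasurable]
  calc ∫⁻ s, (∫⁻ z in ball (0:ℂ) R, ‖f s‖ₑ ^ 2 * (‖z - φ s‖ₑ⁻¹) ^ γ) ∂μ
      ≤ ∫⁻ s, C * ‖f s‖ₑ ^ 2 ∂μ := by
        refine lintegral_mono fun s => ?_
        rw [lintegral_const_mul _ (by
          exact (measurable_id.sub measurable_const).enorm.inv.pow_const γ), mul_comm]
        exact mul_le_mul_left (hC (φ s)) _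
    _ = C * ENNReal.ofReal (‖f‖ ^ 2) := by
        rw [lintegral_const_mul _ ((meas_coe f).enorm.pow_const 2), lint_sq]

/-- Bessel's inequality bounds the norms -/
theorem norm_le_of_bess {H : Type} [NormedAddCommGroup H] [InnerProductSpace ℂ H] {e : ℕ → H}
    (he : Bess e) (j : ℕ) : ‖e j‖ ≤ 1 := by
  have h1 := he (j + 1) (e j)
  have h2 : ‖⟪e j, e j⟫_ℂ‖ ^ 2 ≤ ∑ i ∈ Finset.range (j + 1), ‖⟪e i, e j⟫_ℂ‖ ^ 2 :=
    Finset.single_le_sum (f := fun i => ‖⟪e i, e j⟫_ℂ‖ ^ 2) (fun i _ => by positivity)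
      (Finset.self_mem_range_succ j)
  have h3 : ‖⟪e j, e j⟫_ℂ‖ = ‖e j‖ ^ 2 := by
    rw [inner_self_eq_norm_sq_to_K]
    simp
  rw [h3] at h2
  have h4 : (‖e j‖ ^ 2) ^ 2 ≤ ‖e j‖ ^ 2 := h2.trans h1
  by_contra hcon
  push Not at hcon
  have h5 : 1 < ‖e j‖ ^ 2 := one_lt_pow₀ hcon (by norm_num)
  nlinarith

theorem sg_ball [SigmaFinite μ] (hA : S_AREAG) {φ : S → ℂ} (hφ : Measurable φ) {γ : ℝ}
    (hγ0 : 0 ≤ γ) (hγ : γ < 2) {e : ℕ → Lp ℂ 2 μ} (he : ∀ j, ‖e j‖ ≤ 1) {σ : ℕ → ℝ} {p : ℝ}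
    (hσ : ∀ j, 0 ≤ σ j) (hs : Summable fun j => σ j ^ p) (R : ℝ) :
    ∫⁻ z in ball (0:ℂ) R, sg φ γ e σ p z ≠ ⊤ := by
  obtain ⟨C, hC⟩ := hA R γ hγ0 hγ
  unfold sg
  rw [lintegral_tsum fun j => ((meas_eg hφ γ (e j)).const_mul _).aemeasurable]
  have h1 : ∑' j, ∫⁻ z in ball (0:ℂ) R, ENNReal.ofReal (σ j ^ p) * eg φ γ (e j) z ≤
      ∑' j, ENNReal.ofReal (σ j ^ p) * C := by
    refine ENNReal.tsum_le_tsum fun j => ?_
    rw [lintegral_const_mul _ (meas_eg hφ γ (e j))]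
    gcongr
    refine (eg_ball hφ γ (e j) R C hC).trans ?_
    have h2 : ENNReal.ofReal (‖e j‖ ^ 2) ≤ 1 := by
      rw [← ENNReal.ofReal_one]
      exact ENNReal.ofReal_le_ofReal (pow_le_one₀ (norm_nonneg _) (he j))
    calc (C : ℝ≥0∞) * ENNReal.ofReal (‖e j‖ ^ 2) ≤ C * 1 := by gcongr
      _ = C := mul_one _
  refine ne_top_of_le_ne_top ?_ h1
  rw [ENNReal.tsum_mul_right]
  exact ENNReal.mul_ne_top hs.tsum_ofReal_ne_top ENNReal.coe_ne_top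

/-- the parameters: `q = 2^(m+1)`, `δ = p / q`, `γ = 2 - 2 / q`, `r = p / (1 - δ)` -/
structure Par (p : ℝ) (m : ℕ) (q δ γ r : ℝ) : Prop where
  p1 : 1 ≤ p
  p2 : p < 2
  hq : q = 2 ^ (m + 1)
  hδ : δ = p / q
  hγ : γ = 2 - 2 / q
  hr : r = p / (1 - δ)
  big : 4 * p ≤ (2 - p) * q

namespace Par

variable {p q δ γ r : ℝ} {m : ℕ} (P : Par p m q δ γ r)

include P

theorem q4 : 4 ≤ q := by
  have h1 := P.big
  have h2 := P.p1
  have h3 := P.p2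
  by_contra hcon
  push Not at hcon
  have hq0 : 0 < q := by rw [P.hq]; positivity
  nlinarith

theorem δ0 : 0 < δ := by
  rw [P.hδ]
  exact div_pos (by linarith [P.p1]) (by linarith [P.q4])

theorem δ1 : δ < 1 := by
  rw [P.hδ, div_lt_one (by linarith [P.q4])]
  linarith [P.p2, P.q4]

theorem δq : δ * q = p := by
  rw [P.hδ, div_mul_cancel₀]
  linarith [P.q4]

theorem mr : (1 - δ) * r = p := by
  rw [P.hr, mul_div_cancel₀]
  linarith [P.δ1]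

theorem r1 : 1 ≤ r := by
  rw [P.hr, le_div_iff₀ (by linarith [P.δ1])]
  linarith [P.δ0, P.p1]

theorem r0 : 0 < r := lt_of_lt_of_le one_pos P.r1

theorem rle : r / q + r / 2 ≤ 1 := by
  have hq := P.q4
  have hq0 : 0 < q := by linarith
  have h1 : 0 < q - p := by linarith [P.p2]
  have h2 : r = p * q / (q - p) := by
    rw [P.hr, P.hδ]
    field_simp
  have h3 : r / q + r / 2 = p * (2 + q) / (2 * (q - p)) := by
    rw [h2]
    field_simp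
  rw [h3, div_le_one (by positivity)]
  nlinarith [P.big]

theorem r2 : r ≤ 2 := by
  have h1 := P.rle
  have h2 : 0 ≤ r / q := div_nonneg P.r0.le (by linarith [P.q4])
  linarith

theorem γ0 : 0 ≤ γ := by
  rw [P.hγ]
  have : 2 / q ≤ 2 := by
    rw [div_le_iff₀ (by linarith [P.q4])]
    linarith [P.q4]
  linarith

theorem γ2 : γ < 2 := by
  rw [P.hγ]
  have : 0 < 2 / q := div_pos two_pos (by linarith [P.q4])
  linarith

theorem two_div : (1 : ℝ) / 2 ^ m = 2 / q := by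
  rw [P.hq, pow_succ]
  field_simp

end Par

/-- existence of the parameters -/
theorem exists_par {p : ℝ} (p1 : 1 ≤ p) (p2 : p < 2) : ∃ (m : ℕ) (q δ γ r : ℝ),
    Par p m q δ γ r := by
  obtain ⟨m, hm⟩ := pow_unbounded_of_one_lt (4 * p / (2 - p)) (one_lt_two : (1:ℝ) < 2)
  have h2 : 0 < 2 - p := by linarith
  refine ⟨m, 2 ^ (m + 1), _, _, _, p1, p2, rfl, rfl, rfl, rfl, ?_⟩
  rw [div_lt_iff₀ h2] at hm
  have h3 : (2:ℝ) ^ m ≤ 2 ^ (m + 1) := pow_le_pow_right₀ one_le_two (Nat.le_succ m)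
  nlinarith

/-- an elementary inequality -/
theorem pow_mul_le {P E a b : ℝ} (hP : 0 ≤ P) (hE : 0 ≤ E) (ha : 0 ≤ a) (hb : 0 ≤ b)
    (hab : a + b ≤ 1) : P ^ a * E ^ b ≤ 1 + P + E := by
  set M := max 1 (max P E) with hM
  have hM1 : 1 ≤ M := le_max_left _ _
  have h1 : P ≤ M := (le_max_left _ _).trans (le_max_right _ _)
  have h2 : E ≤ M := (le_max_right _ _).trans (le_max_right _ _)
  calc P ^ a * E ^ b ≤ M ^ a * M ^ b := by
        have e1 := Real.rpow_le_rpow hP h1 ha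
        have e2 := Real.rpow_le_rpow hE h2 hb
        have e3 : 0 ≤ E ^ b := Real.rpow_nonneg hE b
        have e4 : 0 ≤ M ^ a := Real.rpow_nonneg (by linarith) a
        exact mul_le_mul e1 e2 e3 e4
    _ = M ^ (a + b) := by rw [Real.rpow_add (by linarith)]
    _ ≤ M ^ (1 : ℝ) := Real.rpow_le_rpow_of_exponent_le hM1 hab
    _ = M := Real.rpow_one M
    _ ≤ 1 + P + E := by
        rw [hM]
        refine max_le (by linarith) (max_le (by linarith) (by linarith))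

section col

variable {p q δ γ r : ℝ} {m : ℕ}

/-- the vectors -/
noncomputable def vec {H : Type} [NormedAddCommGroup H] [InnerProductSpace ℂ H] (σ : ℕ → ℝ)
    (d : ℝ) (e : ℕ → H) (j : ℕ) : H := ((σ j ^ d : ℝ) : ℂ) • e j

/-- the column bound -/
theorem colb [SigmaFinite μ] (hC : S_CORD) (P : Par p m q δ γ r) {φ : S → ℂ} (hφ : Measurable φ)
    {e : ℕ → Lp ℂ 2 μ} (he : Bess e) {σ : ℕ → ℝ} (hσ : ∀ j, 0 ≤ σ j) (z : ℂ)
    (h1 : sg φ 1 e σ p z ≠ ⊤) (g : Lp ℂ 2 μ) (h2 : eg φ γ g z ≠ ⊤) (n : ℕ) :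
    ∑ i ∈ Finset.range n, ‖ct φ (vec σ δ e i) g z‖ ^ 2 ≤
      (sg φ 1 e σ p z).toReal ^ (2 / q) * (eg φ γ g z).toReal := by
  have hq0 : 0 < q := by linarith [P.q4]
  set w : S → ℝ := fun s => (‖z - φ s‖⁻¹) ^ (1 / q) with hw
  set g' : S → ℂ := fun s => g s * (z - φ s)⁻¹ * ((‖z - φ s‖ ^ (1 / q) : ℝ) : ℂ) with hg'
  have hzφ : Measurable fun s => z - φ s := measurable_const.sub hφ
  have hwm : Measurable w := hzφ.norm.inv.pow_const _
  have hw0 : ∀ s, 0 ≤ w s := fun s => Real.rpow_nonneg (by positivity) _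
  have hg'm : Measurable g' :=
    ((meas_coe g).mul hzφ.inv).mul (Complex.measurable_ofReal.comp (hzφ.norm.pow_const _))
  have hprod : ∀ s, (w s : ℂ) * g' s = g s * (z - φ s)⁻¹ := by
    intro s
    by_cases h : z - φ s = 0
    · simp [hg', h]
    · have h3 : 0 < ‖z - φ s‖ := norm_pos_iff.2 h
      have h4 : w s * ‖z - φ s‖ ^ (1 / q) = 1 := by
        rw [hw]
        simp only
        rw [← Real.mul_rpow (by positivity) h3.le, inv_mul_cancel₀ h3.ne', Real.one_rpow]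
      rw [hg']
      simp only
      calc (w s : ℂ) * (g s * (z - φ s)⁻¹ * ((‖z - φ s‖ ^ (1 / q) : ℝ) : ℂ)) =
          ((w s * ‖z - φ s‖ ^ (1 / q) : ℝ) : ℂ) * (g s * (z - φ s)⁻¹) := by push_cast; ring
        _ = _ := by rw [h4, Complex.ofReal_one, one_mul]
  have hwq : ∀ s, w s ^ 2 ^ (m + 1) = ‖z - φ s‖⁻¹ := by
    intro s
    rw [hw]
    simp only
    rw [← Real.rpow_natCast, ← Real.rpow_mul (by positivity)]
    have h3 : 1 / q * ((2 ^ (m + 1) : ℕ) : ℝ) = 1 := by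
      rw [P.hq]
      push_cast
      field_simp
    rw [h3, Real.rpow_one]
  have hbq : ∀ i, (σ i ^ δ) ^ 2 ^ (m + 1) = σ i ^ p := by
    intro i
    rw [← Real.rpow_natCast, ← Real.rpow_mul (hσ i)]
    congr 1
    have h3 : (((2 ^ (m + 1) : ℕ)) : ℝ) = q := by rw [P.hq]; push_cast; rfl
    rw [h3, P.δq]
  set I : ℝ≥0∞ := ∑ i ∈ Finset.range n, ENNReal.ofReal ((σ i ^ δ) ^ 2 ^ (m + 1)) *
    ∫⁻ s, ‖e i s‖ₑ ^ 2 * ENNReal.ofReal (w s ^ 2 ^ (m + 1)) ∂μ with hI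
  have hIle : I ≤ sg φ 1 e σ p z := by
    rw [hI]
    unfold sg
    refine (Finset.sum_le_sum fun i _ => ?_).trans (ENNReal.sum_le_tsum (Finset.range n))
    rw [hbq]
    gcongr
    unfold eg
    refine lintegral_mono fun s => ?_
    simp only
    rw [hwq, ENNReal.rpow_one]
    gcongr
    by_cases h : z - φ s = 0
    · simp [h]
    · have h3 : 0 < ‖z - φ s‖ := norm_pos_iff.2 h
      rw [ENNReal.ofReal_inv_of_pos h3, ofReal_norm]
  have hIt : I ≠ ⊤ := ne_top_of_le_ne_top h1 hIle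
  have hg'le : ∫⁻ s, ‖g' s‖ₑ ^ 2 ∂μ ≤ eg φ γ g z := by
    unfold eg
    refine lintegral_mono fun s => ?_
    by_cases h : z - φ s = 0
    · simp [hg', h]
    · have h3 : 0 < ‖z - φ s‖ := norm_pos_iff.2 h
      refine le_of_eq ?_
      rw [hg']
      simp only
      rw [enorm_mul, enorm_mul, mul_pow, mul_pow, mul_assoc]
      congr 1
      have e1 : ‖((‖z - φ s‖ ^ (1 / q) : ℝ) : ℂ)‖ₑ = ‖z - φ s‖ₑ ^ (1 / q) := by
        rw [← ofReal_norm, Complex.norm_real, Real.norm_of_nonneg (Real.rpow_nonneg h3.le _),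
          ← ENNReal.ofReal_rpow_of_pos h3, ofReal_norm]
      have hne : ‖z - φ s‖ₑ ≠ 0 := by rwa [enorm_ne_zero]
      have hnt : ‖z - φ s‖ₑ ≠ ⊤ := enorm_ne_top
      rw [e1, enorm_inv h, ← ENNReal.rpow_natCast, ← ENNReal.rpow_natCast, ← ENNReal.rpow_mul,
        ← ENNReal.rpow_neg_one, ← ENNReal.rpow_mul, ← ENNReal.rpow_mul,
        ← ENNReal.rpow_add _ _ hne hnt]
      congr 1
      rw [P.hγ]
      push_cast
      ring
  have hmain := hC S μ e he (fun i => σ i ^ δ) (fun i => Real.rpow_nonneg (hσ i) _) n m w hwm hw0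
    hIt g' hg'm (ne_top_of_le_ne_top h2 hg'le)
  have hct : ∀ i, ‖ct φ (vec σ δ e i) g z‖ ^ 2 =
      (σ i ^ δ) ^ 2 * ‖∫ s, conj (e i s) * (w s * g' s) ∂μ‖ ^ 2 := by
    intro i
    have h3 : ct φ (vec σ δ e i) g z =
        ((σ i ^ δ : ℝ) : ℂ) * ∫ s, conj (e i s) * (w s * g' s) ∂μ := by
      unfold ct
      rw [← integral_const_mul]
      refine integral_congr_ae ?_
      have h4 : ⇑(vec σ δ e i) =ᵐ[μ] fun s => ((σ i ^ δ : ℝ) : ℂ) * e i s := by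
        filter_upwards [Lp.coeFn_smul ((σ i ^ δ : ℝ) : ℂ) (e i)] with s hs
        exact hs
      filter_upwards [h4] with s hs
      rw [hs, hprod, map_mul, Complex.conj_ofReal]
      ring
    rw [h3, norm_mul, mul_pow, Complex.norm_real, Real.norm_eq_abs, sq_abs]
  have hsum : ∑ i ∈ Finset.range n, ‖ct φ (vec σ δ e i) g z‖ ^ 2 =
      ∑ i ∈ Finset.range n, (σ i ^ δ) ^ 2 * ‖∫ s, conj (e i s) * (w s * g' s) ∂μ‖ ^ 2 :=
    Finset.sum_congr rfl fun i _ => hct i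
  rw [hsum]
  have hfin : ENNReal.ofReal (∑ i ∈ Finset.range n, (σ i ^ δ) ^ 2 *
      ‖∫ s, conj (e i s) * (w s * g' s) ∂μ‖ ^ 2) ≤
      sg φ 1 e σ p z ^ (2 / q) * eg φ γ g z := by
    refine hmain.trans ?_
    rw [P.two_div]
    exact mul_le_mul' (ENNReal.rpow_le_rpow hIle (div_nonneg zero_le_two hq0.le)) hg'le
  have h5 := ENNReal.toReal_mono (ENNReal.mul_ne_top
    (ENNReal.rpow_ne_top_of_nonneg (div_nonneg zero_le_two hq0.le) h1) h2) hfin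
  rw [ENNReal.toReal_ofReal (Finset.sum_nonneg fun i _ => by positivity), ENNReal.toReal_mul,
    ← ENNReal.toReal_rpow] at h5
  exact h5

end col

end Pool.Agent.K1H27.SN
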